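import Pool.Agent.X28.CS.Main

set_option autoImplicit false

/-! Common shifts of two sequences of primes: the result in terms of `n`, and its iteration. -/

namespace Pool.Agent.X28.CS

open Finset
open Pool.Agent.H373R2.T7

lemma primorial_le (y : ℕ) (hy : 1 ≤ y) : (primorial y : ℝ) ≤ Real.exp (2 * y) := by
  have h1 : (primorial y : ℝ) ≤ 4 ^ y := by exact_mod_cast (primorial_lt_four_pow y (by omega)).le
  refine h1.trans ?_
  have h2 : (4 : ℝ) ≤ Real.exp 2 := by
    have h3 : (2 : ℝ) ≤ Real.exp 1 := by have := Real.add_one_le_exp (1 : ℝ); linarith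
    have h4 : Real.exp 2 = Real.exp 1 * Real.exp 1 := by rw [← Real.exp_add]; norm_num
    rw [h4]
    nlinarith
  calc (4 : ℝ) ^ y ≤ Real.exp 2 ^ y := by gcongr
    _ = Real.exp (2 * y) := by rw [← Real.exp_nat_mul]; congr 1; ring

lemma ev_ll (K1 : ℕ) : ∃ x0 : ℕ, ∀ x : ℕ, x0 ≤ x → K1 * Real.log (Real.log x) ≤ Real.log x ∧ 1 ≤ Real.log (Real.log x) := by
  have hlim : Filter.Tendsto (fun N : ℕ => Real.log (N : ℝ)) Filter.atTop Filter.atTop :=
    Real.tendsto_log_atTop.comp (tendsto_natCast_atTop_atTop (R := ℝ))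
  have h3 := (Real.isLittleO_log_id_atTop).bound (show (0 : ℝ) < 1 / (K1 + 1) by positivity)
  have h4 := hlim.eventually h3
  have h5 := hlim.eventually_ge_atTop (Real.exp 1)
  obtain ⟨x0, hx0⟩ := Filter.eventually_atTop.1 (h4.and h5)
  refine ⟨x0, fun x hx => ?_⟩
  obtain ⟨h6, h7⟩ := hx0 x hx
  have hL0 : 0 < Real.log x := lt_of_lt_of_le (Real.exp_pos _) h7
  have hll : 1 ≤ Real.log (Real.log x) := by
    rw [← Real.log_exp 1]
    exact Real.log_le_log (Real.exp_pos _) h7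
  simp only [id] at h6
  rw [Real.norm_of_nonneg (by linarith), Real.norm_of_nonneg hL0.le, one_div, inv_mul_eq_div, le_div_iff₀ (by positivity)] at h6
  refine ⟨?_, hll⟩
  nlinarith

lemma small_card (J : Finset ℕ) (f : ℕ → ℕ) (hf : Set.InjOn f J) (y : ℕ) : #(J.filter fun j => f j ≤ y) ≤ y + 1 := by
  have : #(J.filter fun j => f j ≤ y) ≤ #(range (y + 1)) := by
    apply card_le_card_of_injOn f
    · intro j hj
      have := (mem_filter.1 (mem_coe.1 hj)).2
      exact mem_coe.2 (mem_range.2 (by omega))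
    · intro x hx w hw
      exact hf (mem_coe.2 (mem_filter.1 (mem_coe.1 hx)).1) (mem_coe.2 (mem_filter.1 (mem_coe.1 hw)).1)
  rwa [card_range] at this

theorem stepDiag : ∃ c : ℝ, 0 < c ∧ c ≤ 1 ∧ ∀ A B C : ℕ, ∃ K0 : ℕ, ∀ K1 : ℕ, ∃ n0 : ℕ, ∀ n : ℕ, n0 ≤ n →
    ∀ y : ℕ, K0 * Real.log (Real.log n) ≤ y → y ≤ K1 * Real.log (Real.log n) →
    ∀ J : Finset ℕ, (n : ℝ) ≤ #J * Real.log n ^ A → ∀ f h : ℕ → ℕ, Set.InjOn f J → Set.InjOn h J →
    Set.InjOn (fun j => (h j : ℤ) - f j) J →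
    (∀ j ∈ J, ((f j).Prime ∧ (f j : ℝ) ≤ n * Real.log n ^ B) ∧ ((h j).Prime ∧ (h j : ℝ) ≤ n * Real.log n ^ B)) →
    ∀ g₀ G : ℕ, primorial y * (g₀ + G) ≤ n → (n : ℝ) ≤ primorial y * G * Real.log n ^ C →
    c * G ≤ #((Icc 1 G).filter fun g => c * (#J / (Vz y * Real.log n) ^ 2) ≤
      (#(J.filter fun j => (f j + primorial y * (g₀ + g)).Prime ∧ (h j + primorial y * (g₀ + g)).Prime) : ℝ)) := by
  obtain ⟨c, hc, hcom⟩ := common
  refine ⟨min (c / 8) 1, by positivity, min_le_right _ _, fun A B C => ?_⟩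
  refine ⟨6 * (A + B + 3 + 6), fun K1 => ?_⟩
  obtain ⟨X0, h1⟩ := hcom (A + B + 3) (C + B + 2 + 2 * K1)
  obtain ⟨n1, h2⟩ := ev_ll K1
  obtain ⟨n2, h3⟩ := ev_log' (B + 2) 1
  obtain ⟨n3, h4⟩ := ev_log' (A + 1) 8
  obtain ⟨n4, h5⟩ := ev_L' 8
  refine ⟨max X0 (max n1 (max n2 (max n3 (max n4 3)))), fun n hn y hy1 hy2 J hJ f h hf hh hD hfh g₀ G hGn hnG => ?_⟩
  obtain ⟨hll1, hll2⟩ := h2 n (by omega)
  have hs1 := h3 n (by omega)
  have hs2 := h4 n (by omega)
  have hL8 := h5 n (by omega)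
  have hn3 : 3 ≤ n := by omega
  set L := Real.log n with hL
  have hn0 : (0 : ℝ) < n := by exact_mod_cast (show 0 < n by omega)
  have hn1 : (1 : ℝ) ≤ n := by exact_mod_cast (show 1 ≤ n by omega)
  have hL0 : 0 < L := by linarith
  have hL1 : 1 ≤ L := by linarith
  set M := primorial y with hM
  have hMpos : 1 ≤ M := primorial_pos y
  have hyL : (y : ℝ) ≤ L := hy2.trans hll1
  have hy1' : 1 ≤ y := by
    have : (1 : ℝ) ≤ y := by
      refine le_trans ?_ hy1
      push_cast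
      have : (0 : ℝ) ≤ A := Nat.cast_nonneg _
      have : (0 : ℝ) ≤ B := Nat.cast_nonneg _
      nlinarith
    exact_mod_cast this
  -- the size `X`
  set X := ⌈(n : ℝ) * L ^ (B + 1)⌉₊ with hX
  have hX1 : (n : ℝ) * L ^ (B + 1) ≤ X := Nat.le_ceil _
  have hLB : 1 ≤ L ^ B := one_le_pow₀ hL1
  have hX2 : (X : ℝ) ≤ n * L ^ (B + 2) := by
    have h6 := (Nat.ceil_lt_add_one (show 0 ≤ (n : ℝ) * L ^ (B + 1) by positivity)).le
    refine h6.trans ?_
    have e1 : L ^ (B + 1) = L ^ B * L := pow_succ _ _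
    have e2 : L ^ (B + 2) = L ^ B * L * L := by rw [pow_succ, pow_succ]
    rw [e1, e2]
    have : 1 ≤ (n : ℝ) * (L ^ B * L) := by
      have : 1 ≤ L ^ B * L := by nlinarith
      nlinarith
    nlinarith
  have hnX : (n : ℝ) ≤ X := by
    refine le_trans ?_ hX1
    have : 1 ≤ L ^ (B + 1) := one_le_pow₀ hL1
    nlinarith
  have hX0n : X0 ≤ X := by
    have h6 : n ≤ X := by exact_mod_cast hnX
    omega
  have hXn2 : (X : ℝ) ≤ (n : ℝ) ^ 2 := by
    refine hX2.trans ?_
    have : L ^ (B + 2) ≤ n := by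
      rw [one_mul] at hs1
      refine hs1.trans ?_
      rw [Real.sqrt_le_left hn0.le]
      nlinarith
    nlinarith
  set LX := Real.log X with hLX
  have hLX1 : L ≤ LX := Real.log_le_log hn0 hnX
  have hLX2 : LX ≤ 2 * L := by
    have h6 := Real.log_le_log (lt_of_lt_of_le hn0 hnX) hXn2
    rw [Real.log_pow] at h6
    push_cast at h6
    exact h6
  have hLX0 : 0 < LX := by linarith
  have hllX : Real.log LX ≤ 2 * Real.log L := by
    have h6 := Real.log_le_log hLX0 hLX2
    rw [Real.log_mul (by norm_num) hL0.ne'] at h6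
    have := Real.log_two_lt_d9
    linarith
  -- the indices with large primes
  set K := J.filter (fun j => y < f j ∧ y < h j) with hK
  have hKJ : K ⊆ J := filter_subset _ _
  have hKc : (#J : ℝ) / 2 ≤ #K := by
    have h6 : J \ K ⊆ (J.filter fun j => f j ≤ y) ∪ (J.filter fun j => h j ≤ y) := by
      intro j hj
      rw [mem_sdiff, hK, mem_filter] at hj
      rw [mem_union, mem_filter, mem_filter]
      by_cases h7 : f j ≤ y
      · exact Or.inl ⟨hj.1, h7⟩
      · by_cases h8 : h j ≤ y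
        · exact Or.inr ⟨hj.1, h8⟩
        · exact absurd ⟨hj.1, by omega, by omega⟩ hj.2
    have h7 := (card_le_card h6).trans (card_union_le _ _)
    have h8 := small_card J f hf y
    have h9 := small_card J h hh y
    have h10 : #J ≤ #K + #(J \ K) := by
      have := card_sdiff_add_card_eq_card hKJ
      omega
    have h11 : (#J : ℝ) ≤ #K + (2 * y + 2) := by exact_mod_cast (by omega : #J ≤ #K + (2 * y + 2))
    have h12 : 2 * (y : ℝ) + 2 ≤ #J / 2 := by
      have h13 : 8 * L ^ (A + 1) ≤ n := by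
        refine hs2.trans ?_
        rw [Real.sqrt_le_left hn0.le]
        nlinarith
      have h14 : 8 * L ≤ #J := by
        have e1 : L ^ (A + 1) = L ^ A * L := pow_succ _ _
        have hLA : 0 < L ^ A := by positivity
        have h15 : L ^ A * (8 * L) ≤ L ^ A * #J := by
          rw [e1] at h13
          linarith
        exact le_of_mul_le_mul_left h15 hLA
      linarith
    linarith
  have hprime : ∀ q : ℕ, q.Prime → ∀ p : ℕ, p.Prime → p ≤ y → y < q → ¬ p ∣ q := by
    intro q hq p hp hpy hyq hd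
    have := (Nat.prime_dvd_prime_iff_eq hp hq).1 hd
    omega
  have hsize : ∀ m : ℕ, (m : ℝ) ≤ n * L ^ B → m + M * (g₀ + G) ≤ X := by
    intro m hm
    have h6 : ((m + M * (g₀ + G) : ℕ) : ℝ) ≤ X := by
      have h7 : ((M * (g₀ + G) : ℕ) : ℝ) ≤ n := by exact_mod_cast hGn
      have e1 : L ^ (B + 1) = L ^ B * L := pow_succ _ _
      calc ((m + M * (g₀ + G) : ℕ) : ℝ) = (m : ℝ) + ((M * (g₀ + G) : ℕ) : ℝ) := by push_cast; ring
        _ ≤ n * L ^ B + n * L ^ B := by nlinarith
        _ ≤ n * L ^ (B + 1) := by rw [e1]; nlinarith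
        _ ≤ X := hX1
    exact_mod_cast h6
  have hFam : Fam X y M g₀ G K f h :=
    { hM := hMpos
      hMp := fun p hp => hp.dvd_primorial_iff
      ha := fun k hk => (hfh k (hKJ hk)).1.1.one_lt.le
      hb := fun k hk => (hfh k (hKJ hk)).2.1.one_lt.le
      haX := fun k hk => hsize _ (hfh k (hKJ hk)).1.2
      hbX := fun k hk => hsize _ (hfh k (hKJ hk)).2.2
      hac := fun k hk p hp hpy => hprime _ (hfh k (hKJ hk)).1.1 p hp hpy (mem_filter.1 hk).2.1
      hbc := fun k hk p hp hpy => hprime _ (hfh k (hKJ hk)).2.1 p hp hpy (mem_filter.1 hk).2.2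
      inj := hD.mono (by exact_mod_cast hKJ) }
  have hLpow : ∀ a b : ℕ, a ≤ b → L ^ a ≤ LX ^ b := fun a b hab =>
    (pow_le_pow_left₀ hL0.le hLX1 a).trans (pow_le_pow_right₀ (by linarith) hab)
  have hMle : (M : ℝ) ≤ L ^ (2 * K1) := by
    refine (primorial_le y hy1').trans ?_
    have e : L ^ (2 * K1) = Real.exp (((2 * K1 : ℕ) : ℝ) * Real.log L) := by rw [Real.exp_nat_mul, Real.exp_log hL0]
    rw [e]
    apply Real.exp_le_exp.2
    push_cast
    linarith
  have hA0 : (0 : ℝ) ≤ A := Nat.cast_nonneg _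
  have hB0 : (0 : ℝ) ≤ B := Nat.cast_nonneg _
  have hMr : (0 : ℝ) < M := by exact_mod_cast hMpos
  have hGr : (0 : ℝ) ≤ G := Nat.cast_nonneg _
  have key := h1 X hX0n y M g₀ G K f h hFam (hf.mono (by exact_mod_cast hKJ)) (hh.mono (by exact_mod_cast hKJ))
    (by
      refine le_trans ?_ hy1
      push_cast
      have : 0 ≤ 3 * ((A : ℝ) + B + 3 + 6) := by positivity
      nlinarith)
    (hyL.trans hLX1) (hMle.trans (hLpow _ _ (by omega)))
    (by
      calc (X : ℝ) ≤ n * L ^ (B + 2) := hX2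
        _ ≤ M * G * L ^ C * L ^ (B + 2) := by gcongr
        _ = M * G * L ^ (C + B + 2) := by rw [mul_assoc, ← pow_add]; ring_nf
        _ ≤ M * G * LX ^ (C + B + 2 + 2 * K1) := mul_le_mul_of_nonneg_left (hLpow _ _ (by omega)) (by positivity))
    (by
      calc (X : ℝ) ≤ n * L ^ (B + 2) := hX2
        _ ≤ #J * L ^ A * L ^ (B + 2) := by gcongr
        _ = #J * L ^ (A + B + 2) := by rw [mul_assoc, ← pow_add]; ring_nf
        _ ≤ (#K * L) * L ^ (A + B + 2) := by
            apply mul_le_mul_of_nonneg_right _ (by positivity)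
            have : (0 : ℝ) ≤ #K := Nat.cast_nonneg _
            nlinarith
        _ = #K * L ^ (A + B + 3) := by rw [pow_succ L (A + B + 2)]; ring
        _ ≤ #K * LX ^ (A + B + 3) := mul_le_mul_of_nonneg_left (hLpow _ _ le_rfl) (Nat.cast_nonneg _))
  have hcm : min (c / 8) 1 ≤ c := (min_le_left _ _).trans (by linarith)
  refine (mul_le_mul_of_nonneg_right hcm hGr).trans (key.trans ?_)
  apply Nat.cast_le.2
  apply card_le_card_of_injOn (fun g => g - g₀)
  · intro g hg
    rw [mem_coe, mem_filter, mem_Ioc] at hg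
    rw [mem_coe, mem_filter, mem_Icc]
    beta_reduce
    obtain ⟨⟨g1, g2⟩, g3⟩ := hg
    refine ⟨by omega, ?_⟩
    have e1 : g₀ + (g - g₀) = g := by omega
    simp only [e1]
    have hV0 : 0 < Vz y := Vz_pos y
    calc min (c / 8) 1 * (#J / (Vz y * L) ^ 2) ≤ c / 8 * (#J / (Vz y * L) ^ 2) := by
          apply mul_le_mul_of_nonneg_right (min_le_left _ _) (by positivity)
      _ = c * (#J / 2) * (Vz y)⁻¹ ^ 2 / (2 * L) ^ 2 := by field_simp; ring
      _ ≤ c * #K * (Vz y)⁻¹ ^ 2 / LX ^ 2 := by gcongr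
      _ ≤ _ := g3
      _ ≤ _ := by
          apply Nat.cast_le.2
          apply card_le_card
          intro k hk
          unfold hits at hk
          rw [mem_filter] at hk ⊢
          exact ⟨hKJ hk.1, hk.2⟩
  · intro x hx w hw hxw
    have hx' := (mem_Ioc.1 (mem_filter.1 (mem_coe.1 hx)).1)
    have hw' := (mem_Ioc.1 (mem_filter.1 (mem_coe.1 hw)).1)
    simp only at hxw
    omega

/-- iteration of a step over `r` parameters -/
theorem iter (G : ℕ) (c β θ : ℝ) (hc : 0 ≤ c) (hβ0 : 0 < β) (hβ1 : β ≤ 1) (U : Finset ℕ) (Q : ℕ → ℕ → Prop)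
    [∀ g k, Decidable (Q g k)]
    (hstep : ∀ K ⊆ U, θ ≤ (#K : ℝ) → c * G ≤ (#((Icc 1 G).filter fun g => β * #K ≤ (#(K.filter (Q g)) : ℝ)) : ℝ)) :
    ∀ r : ℕ, ∀ K ⊆ U, θ ≤ β ^ r * #K → (c * G) ^ r ≤
      (#((Fintype.piFinset fun _ : Fin r => Icc 1 G).filter fun g => β ^ r * #K ≤
        (#(K.filter fun k => ∀ i, Q (g i) k) : ℝ)) : ℝ) := by
  intro r
  induction r with
  | zero =>
    intro K _ _
    have h1 : ((Fintype.piFinset fun _ : Fin 0 => Icc 1 G).filter fun g => β ^ 0 * #K ≤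
        (#(K.filter fun k => ∀ i, Q (g i) k) : ℝ)) = {fun i => i.elim0} := by
      ext g
      rw [mem_filter, mem_singleton]
      constructor
      · intro _; funext i; exact i.elim0
      · intro _
        refine ⟨Fintype.mem_piFinset.2 fun i => i.elim0, ?_⟩
        have : K.filter (fun k => ∀ i : Fin 0, Q (g i) k) = K := filter_true_of_mem fun k _ i => i.elim0
        rw [this, pow_zero, one_mul]
    rw [h1]
    simp
  | succ r ih =>
    intro K hKU hθ
    have hβr : 0 < β ^ r := by positivity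
    have hθ1 : θ ≤ #K := by
      refine hθ.trans ?_
      have : β ^ (r + 1) ≤ 1 := pow_le_one₀ hβ0.le hβ1
      have h0 : (0 : ℝ) ≤ #K := Nat.cast_nonneg _
      nlinarith
    have h1 := hstep K hKU hθ1
    set N := (Icc 1 G).filter fun g => β * #K ≤ (#(K.filter (Q g)) : ℝ) with hN
    set S : ℕ → Finset (Fin r → ℕ) := fun g => (Fintype.piFinset fun _ : Fin r => Icc 1 G).filter fun h =>
      β ^ r * #(K.filter (Q g)) ≤ (#((K.filter (Q g)).filter fun k => ∀ i, Q (h i) k) : ℝ) with hS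
    have h2 : ∀ g ∈ N, (c * G) ^ r ≤ (#(S g) : ℝ) := by
      intro g hg
      apply ih (K.filter (Q g)) ((filter_subset _ _).trans hKU)
      rw [hN, mem_filter] at hg
      refine hθ.trans ?_
      calc β ^ (r + 1) * #K = β ^ r * (β * #K) := by ring
        _ ≤ _ := mul_le_mul_of_nonneg_left hg.2 hβr.le
    have h3 : (c * G) ^ (r + 1) ≤ (#(N.sigma S) : ℝ) := by
      rw [card_sigma]
      push_cast
      have h4 : (#N : ℝ) * (c * G) ^ r ≤ ∑ g ∈ N, (#(S g) : ℝ) := by
        rw [← nsmul_eq_mul, ← sum_const]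
        exact sum_le_sum h2
      refine le_trans ?_ h4
      rw [pow_succ, mul_comm]
      exact mul_le_mul_of_nonneg_right h1 (by positivity)
    refine h3.trans ?_
    apply Nat.cast_le.2
    apply card_le_card_of_injOn (fun x : (Σ _ : ℕ, (Fin r → ℕ)) => (Fin.cons x.1 x.2 : Fin (r + 1) → ℕ))
    · intro x hx
      rw [mem_coe, mem_sigma] at hx
      obtain ⟨hx1, hx2⟩ := hx
      rw [hN, mem_filter] at hx1
      rw [hS, mem_filter] at hx2
      rw [mem_coe, mem_filter]
      refine ⟨?_, ?_⟩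
      · rw [Fintype.mem_piFinset]
        intro i
        refine Fin.cases ?_ (fun j => ?_) i
        · exact hx1.1
        · exact Fintype.mem_piFinset.1 hx2.1 j
      · have e1 : K.filter (fun k => ∀ i : Fin (r + 1), Q ((Fin.cons x.1 x.2 : Fin (r + 1) → ℕ) i) k) =
            (K.filter (Q x.1)).filter fun k => ∀ i, Q (x.2 i) k := by
          rw [filter_filter]
          apply filter_congr
          intro k _
          rw [Fin.forall_fin_succ]
          simp
        rw [e1]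
        calc β ^ (r + 1) * #K = β ^ r * (β * #K) := by ring
          _ ≤ β ^ r * #(K.filter (Q x.1)) := mul_le_mul_of_nonneg_left hx1.2 hβr.le
          _ ≤ _ := hx2.2
    · intro x _ w _ hxw
      simp only at hxw
      have h5 := Fin.cons_injective2 hxw
      exact Sigma.ext h5.1 (heq_of_eq h5.2)

/-- `r` common shifts -/
theorem stepDiagR : ∃ c : ℝ, 0 < c ∧ c ≤ 1 ∧ ∀ r A B C : ℕ, ∃ K0 : ℕ, ∀ K1 : ℕ, ∃ n0 : ℕ, ∀ n : ℕ, n0 ≤ n →
    ∀ y : ℕ, K0 * Real.log (Real.log n) ≤ y → y ≤ K1 * Real.log (Real.log n) →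
    ∀ J : Finset ℕ, (n : ℝ) ≤ #J * Real.log n ^ A → ∀ f h : ℕ → ℕ, Set.InjOn f J → Set.InjOn h J →
    Set.InjOn (fun j => (h j : ℤ) - f j) J →
    (∀ j ∈ J, ((f j).Prime ∧ (f j : ℝ) ≤ n * Real.log n ^ B) ∧ ((h j).Prime ∧ (h j : ℝ) ≤ n * Real.log n ^ B)) →
    ∀ g₀ G : ℕ, primorial y * (g₀ + G) ≤ n → (n : ℝ) ≤ primorial y * G * Real.log n ^ C →
    (c * G) ^ r ≤ (#((Fintype.piFinset fun _ : Fin r => Icc 1 G).filter fun g =>
      c ^ r * (#J / (Vz y * Real.log n) ^ (2 * r)) ≤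
      (#(J.filter fun j => ∀ i, (f j + primorial y * (g₀ + g i)).Prime ∧ (h j + primorial y * (g₀ + g i)).Prime) : ℝ)) : ℝ) := by
  classical
  obtain ⟨c, hc, hc1, hst⟩ := stepDiag
  refine ⟨c, hc, hc1, fun r A B C => ?_⟩
  obtain ⟨K0, h1⟩ := hst (A + 3 * r) B C
  refine ⟨K0 + 1, fun K1 => ?_⟩
  obtain ⟨n1, h2⟩ := h1 K1
  obtain ⟨n2, h3⟩ := ev_L' (1 / c + 8)
  obtain ⟨n3, h4⟩ := ev_ll 1
  refine ⟨max n1 (max n2 (max n3 3)), fun n hn y hy1 hy2 J hJ f h hf hh hD hfh g₀ G hGn hnG => ?_⟩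
  have hLc := h3 n (by omega)
  obtain ⟨_, hll⟩ := h4 n (by omega)
  have hn3 : 3 ≤ n := by omega
  set L := Real.log n with hL
  have hc' : 0 < 1 / c := by positivity
  have hL8 : 8 ≤ L := by linarith
  have hL0 : 0 < L := by linarith
  have hL1 : 1 ≤ L := by linarith
  have hcL : 1 ≤ c * L := by
    have : c * (1 / c) = 1 := by field_simp
    nlinarith
  have hV0 := Vz_pos y
  have hV1 := Vz_le_one y
  have hy1' : (K0 : ℝ) * Real.log L ≤ y := by
    refine le_trans ?_ hy1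
    push_cast
    nlinarith
  -- the density factor
  set β : ℝ := c / (Vz y * L) ^ 2 with hβ
  have hβ0 : 0 < β := by positivity
  have hβlow : 1 / L ^ 3 ≤ β := by
    rw [hβ, div_le_div_iff₀ (by positivity) (by positivity)]
    have h5 : (Vz y * L) ^ 2 ≤ L ^ 2 := by
      apply pow_le_pow_left₀ (by positivity)
      nlinarith
    calc 1 * (Vz y * L) ^ 2 ≤ L ^ 2 := by linarith
      _ ≤ (c * L) * L ^ 2 := by nlinarith [sq_nonneg L]
      _ = c * L ^ 3 := by ring
  -- `β ≤ 1` since `Vz y * L ≥ 1`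
  have hyy : 1 ≤ y := by
    have : (0 : ℝ) < y := by
      refine lt_of_lt_of_le ?_ hy1
      push_cast
      have : (0 : ℝ) ≤ K0 := Nat.cast_nonneg _
      nlinarith
    exact_mod_cast this
  by_cases hβ1 : β ≤ 1
  · have hstep : ∀ K ⊆ J, (n : ℝ) / L ^ (A + 3 * r) ≤ (#K : ℝ) → c * G ≤ (#((Icc 1 G).filter fun g => β * #K ≤
        (#(K.filter (fun j => (f j + primorial y * (g₀ + g)).Prime ∧ (h j + primorial y * (g₀ + g)).Prime)) : ℝ)) : ℝ) := by
      intro K hKJ hK
      rw [div_le_iff₀ (by positivity)] at hK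
      have hKJ' : (K : Set ℕ) ⊆ J := by exact_mod_cast hKJ
      have h5 := h2 n (by omega) y hy1' hy2 K hK f h (hf.mono hKJ') (hh.mono hKJ') (hD.mono hKJ') (fun j hj => hfh j (hKJ hj))
        g₀ G hGn hnG
      refine h5.trans (le_of_eq ?_)
      congr 3
      funext g
      have e : c * (#K / (Vz y * L) ^ 2) = β * #K := by rw [hβ]; ring
      rw [e]
    have h6 := iter G c β (n / L ^ (A + 3 * r)) hc.le hβ0 hβ1 J
      (fun g j => (f j + primorial y * (g₀ + g)).Prime ∧ (h j + primorial y * (g₀ + g)).Prime) hstep r J (Subset.refl _) (by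
        have h7 : (1 / L ^ 3) ^ r ≤ β ^ r := pow_le_pow_left₀ (by positivity) hβlow r
        have h8 : (n : ℝ) / L ^ A ≤ #J := by
          rw [div_le_iff₀ (by positivity)]
          exact hJ
        calc (n : ℝ) / L ^ (A + 3 * r) = (1 / L ^ 3) ^ r * (n / L ^ A) := by
              rw [pow_add, pow_mul, one_div, inv_pow]
              field_simp
          _ ≤ β ^ r * #J := by gcongr)
    refine h6.trans (le_of_eq ?_)
    congr 3
    funext g
    have e : c ^ r * (#J / (Vz y * L) ^ (2 * r)) = β ^ r * #J := by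
      rw [hβ, div_pow, ← pow_mul]
      ring
    rw [e]
  · -- impossible for large `n`, since the counts never exceed `#K`
    exfalso
    apply hβ1
    by_contra hlt
    push Not at hlt
    have hJ' : (n : ℝ) ≤ #J * L ^ (A + 3 * r) := by
      refine hJ.trans ?_
      apply mul_le_mul_of_nonneg_left _ (Nat.cast_nonneg _)
      exact pow_le_pow_right₀ hL1 (by omega)
    have h5 := h2 n (by omega) y hy1' hy2 J hJ' f h hf hh hD hfh g₀ G hGn hnG
    have hJpos : (0 : ℝ) < #J := by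
      have hn0 : (0 : ℝ) < n := by exact_mod_cast (show 0 < n by omega)
      by_contra h0
      have h00 : (#J : ℝ) = 0 := le_antisymm (not_lt.1 h0) (Nat.cast_nonneg _)
      rw [h00, zero_mul] at hJ
      linarith
    have h6 : ((Icc 1 G).filter fun g => c * (#J / (Vz y * L) ^ 2) ≤
        (#(J.filter fun j => (f j + primorial y * (g₀ + g)).Prime ∧ (h j + primorial y * (g₀ + g)).Prime) : ℝ)) = ∅ := by
      rw [filter_eq_empty_iff]
      intro g _
      rw [not_le]
      have h7 : (#(J.filter fun j => (f j + primorial y * (g₀ + g)).Prime ∧ (h j + primorial y * (g₀ + g)).Prime) : ℝ) ≤ #J :=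
        Nat.cast_le.2 (card_filter_le _ _)
      have e : c * (#J / (Vz y * L) ^ 2) = β * #J := by rw [hβ]; ring
      rw [e]
      nlinarith
    rw [h6, card_empty, Nat.cast_zero] at h5
    have hG0 : (0 : ℝ) < G := by
      have hn0 : (0 : ℝ) < n := by exact_mod_cast (show 0 < n by omega)
      by_contra h0
      have h00 : (G : ℝ) = 0 := le_antisymm (not_lt.1 h0) (Nat.cast_nonneg _)
      rw [h00, mul_zero, zero_mul] at hnG
      linarith
    nlinarith

end Pool.Agent.X28.CS
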