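import Pool.Agent.H197R2.PG3
import Pool.Agent.H373R2.T7.LamZ

set_option autoImplicit false

/-! Few integers have many prime factors beyond `y`. -/

namespace Pool.Agent.X28.CS

open Finset
open Pool.Agent.H197R2.PG (PY)
open Pool.Agent.H373R2.T7

/-- the part of the singular factor coming from the primes beyond `y` -/
noncomputable def gy (y d : ℕ) : ℝ := ∏ p ∈ d.primeFactors.filter (fun p => y < p), (1 - 1 / (p : ℝ))⁻¹

lemma moment (Y : ℕ) (w : ℕ → ℝ) (hw : ∀ p, 0 ≤ w p) :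
    ∑ h ∈ Icc 1 Y, ∏ p ∈ h.primeFactors, (1 + w p) ≤ Y * ∏ p ∈ PY Y, (1 + w p / p) := by
  classical
  have hPY : ∀ p ∈ PY Y, p.Prime := fun p hp => (mem_filter.mp hp).2
  have h1 : ∀ h ∈ Icc 1 Y, ∏ p ∈ h.primeFactors, (1 + w p) = ∑ T ∈ (PY Y).powerset,
      if T ⊆ h.primeFactors then ∏ p ∈ T, w p else 0 := by
    intro h hh
    rw [mem_Icc] at hh
    rw [Finset.prod_one_add, ← Finset.sum_filter]
    apply Finset.sum_congr _ (fun _ _ => rfl)
    ext T
    rw [mem_filter, mem_powerset, mem_powerset]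
    constructor
    · intro hT
      refine ⟨?_, hT⟩
      intro p hp
      have hpp := hT hp
      rw [Nat.mem_primeFactors] at hpp
      unfold PY
      rw [mem_filter, mem_Icc]
      exact ⟨⟨hpp.1.one_lt.le, (Nat.le_of_dvd (by omega) hpp.2.1).trans hh.2⟩, hpp.1⟩
    · exact fun hT => hT.2
  rw [Finset.sum_congr rfl h1, Finset.sum_comm, Finset.prod_one_add, Finset.mul_sum]
  apply Finset.sum_le_sum
  intro T hT
  rw [mem_powerset] at hT
  rw [← Finset.sum_filter, Finset.sum_const, nsmul_eq_mul]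
  have hcard : ((Icc 1 Y).filter (fun h => T ⊆ h.primeFactors)).card ≤ Y / ∏ p ∈ T, p := by
    rw [← Nat.Ioc_filter_dvd_card_eq_div Y (∏ p ∈ T, p)]
    apply Finset.card_le_card
    intro h hh
    rw [mem_filter, mem_Icc] at hh
    rw [mem_filter, mem_Ioc]
    refine ⟨⟨by omega, hh.1.2⟩, ?_⟩
    apply Finset.prod_primes_dvd
    · intro p hp
      exact (hPY p (hT hp)).prime
    · intro p hp
      exact Nat.dvd_of_mem_primeFactors (hh.2 hp)
  have h2 : (((Icc 1 Y).filter (fun h => T ⊆ h.primeFactors)).card : ℝ) ≤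
      (Y : ℝ) / ∏ p ∈ T, (p : ℝ) := by
    calc (((Icc 1 Y).filter (fun h => T ⊆ h.primeFactors)).card : ℝ)
        ≤ ((Y / ∏ p ∈ T, p : ℕ) : ℝ) := by exact_mod_cast hcard
      _ ≤ (Y : ℝ) / ((∏ p ∈ T, p : ℕ) : ℝ) := Nat.cast_div_le
      _ = (Y : ℝ) / ∏ p ∈ T, (p : ℝ) := by push_cast; rfl
  calc (((Icc 1 Y).filter (fun h => T ⊆ h.primeFactors)).card : ℝ) * ∏ p ∈ T, w p
      ≤ (Y : ℝ) / (∏ p ∈ T, (p : ℝ)) * ∏ p ∈ T, w p := by
        apply mul_le_mul_of_nonneg_right h2
        exact Finset.prod_nonneg (fun p _ => hw p)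
    _ = Y * ∏ p ∈ T, (w p / p) := by
        rw [Finset.prod_div_distrib]
        ring

lemma sum_inv_sq (y Y : ℕ) (hy : 1 ≤ y) : ∑ p ∈ (PY Y).filter (fun p => y < p), 1 / (p : ℝ) ^ 2 ≤ 1 / (y : ℝ) := by
  have key : ∀ N : ℕ, y ≤ N → ∑ n ∈ Ioc y N, 1 / (n : ℝ) ^ 2 ≤ 1 / (y : ℝ) - 1 / (N : ℝ) := by
    intro N hN
    induction N, hN using Nat.le_induction with
    | base => simp
    | succ N hN ih =>
      rw [sum_Ioc_succ_top hN]
      have h1 : (1 : ℝ) ≤ N := by exact_mod_cast (show 1 ≤ N by omega)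
      have h2 : 1 / ((N + 1 : ℕ) : ℝ) ^ 2 ≤ 1 / (N : ℝ) - 1 / ((N + 1 : ℕ) : ℝ) := by
        push_cast
        rw [div_sub_div _ _ (by linarith) (by linarith), div_le_div_iff₀ (by positivity) (by positivity)]
        nlinarith
      linarith
  rcases le_or_gt y Y with h | h
  · refine le_trans (sum_le_sum_of_subset_of_nonneg (t := Ioc y Y) ?_ (fun _ _ _ => by positivity)) ((key Y h).trans ?_)
    · intro p hp
      rw [mem_filter] at hp
      unfold PY at hp
      rw [mem_filter, mem_Icc] at hp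
      rw [mem_Ioc]
      exact ⟨hp.2, hp.1.1.2⟩
    · have : (0 : ℝ) ≤ 1 / (Y : ℝ) := by positivity
      linarith
  · have : (PY Y).filter (fun p => y < p) = ∅ := by
      rw [filter_eq_empty_iff]
      intro p hp
      unfold PY at hp
      rw [mem_filter, mem_Icc] at hp
      omega
    rw [this, sum_empty]
    positivity

lemma gy_pow_le (y k d : ℕ) (hy : 1 ≤ y) : gy y d ^ k ≤ ∏ p ∈ d.primeFactors, (1 + (if y < p then Real.exp (2 * k / p) - 1 else 0)) := by
  unfold gy
  rw [← prod_pow, prod_filter]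
  apply prod_le_prod
  · intro p hp
    split_ifs with h
    · have h1 : (1 : ℝ) < p := by exact_mod_cast (show 1 < p by omega)
      have : 0 ≤ (1 - 1 / (p : ℝ))⁻¹ := by
        apply inv_nonneg.2
        rw [sub_nonneg, div_le_one (by linarith)]; linarith
      positivity
    · norm_num
  · intro p hp
    split_ifs with h
    · have h1 : (2 : ℝ) ≤ p := by exact_mod_cast (show 2 ≤ p by omega)
      have h2 : (1 - 1 / (p : ℝ))⁻¹ ≤ Real.exp (2 / p) := by
        have h3 : (1 - 1 / (p : ℝ))⁻¹ ≤ 2 * (1 / p) + 1 := by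
          rw [inv_le_iff_one_le_mul₀ (by rw [sub_pos, div_lt_one (by linarith)]; linarith)]
          have h7 : 0 < 1 / (p : ℝ) := by positivity
          have h8 : 1 / (p : ℝ) ≤ 1 / 2 := one_div_le_one_div_of_le (by norm_num) h1
          nlinarith
        refine h3.trans ?_
        have := Real.add_one_le_exp (2 / (p : ℝ))
        have e : 2 * (1 / (p : ℝ)) = 2 / p := by ring
        rw [e]
        exact this
      have h3 : 0 ≤ (1 - 1 / (p : ℝ))⁻¹ := by
        apply inv_nonneg.2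
        rw [sub_nonneg, div_le_one (by linarith)]; linarith
      calc ((1 - 1 / (p : ℝ))⁻¹) ^ k ≤ Real.exp (2 / p) ^ k := pow_le_pow_left₀ h3 h2 k
        _ = Real.exp (2 * k / p) := by rw [← Real.exp_nat_mul]; congr 1; ring
        _ = _ := by ring
    · simp

lemma dens_aux (y Y : ℕ) (hy : 2 ≤ y) : (#((Icc 1 Y).filter fun d => 2 < gy y d) : ℝ) ≤ Real.exp 2 * 2 * Y / 2 ^ ((y : ℝ) / 2) := by
  set k := y / 2 with hk
  have hyr : (2 : ℝ) ≤ y := by exact_mod_cast hy
  set w : ℕ → ℝ := fun p => if y < p then Real.exp (2 * k / p) - 1 else 0 with hw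
  have hw0 : ∀ p, 0 ≤ w p := by
    intro p
    simp only [hw]
    split_ifs
    · have := Real.one_le_exp (show (0 : ℝ) ≤ 2 * k / p by positivity)
      linarith
    · exact le_rfl
  have hm := moment Y w hw0
  have h1 : ∏ p ∈ PY Y, (1 + w p / p) ≤ Real.exp 2 := by
    have h2 : ∀ p ∈ PY Y, 1 + w p / p ≤ Real.exp (if y < p then 4 * k * (1 / (p : ℝ) ^ 2) else 0) := by
      intro p _
      simp only [hw]
      split_ifs with h
      · have hp0 : (0 : ℝ) < p := by exact_mod_cast (show 0 < p by omega)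
        have hx : 2 * (k : ℝ) / p ≤ 1 := by
          rw [div_le_one hp0]
          exact_mod_cast (show 2 * k ≤ p by omega)
        have hx0 : 0 ≤ 2 * (k : ℝ) / p := by positivity
        have h3 : Real.exp (2 * k / p) - 1 ≤ 2 * (2 * k / p) := by
          have := Real.abs_exp_sub_one_le (x := 2 * (k : ℝ) / p) (by rw [abs_of_nonneg hx0]; exact hx)
          rw [abs_of_nonneg hx0] at this
          exact (le_abs_self _).trans this
        refine le_trans ?_ (Real.add_one_le_exp _)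
        have h4 : (Real.exp (2 * k / p) - 1) / p ≤ 2 * (2 * k / p) / p := by gcongr
        have e : 2 * (2 * (k : ℝ) / p) / p = 4 * k * (1 / (p : ℝ) ^ 2) := by field_simp; ring
        rw [e] at h4
        linarith
      · simp
    refine (prod_le_prod (fun p _ => by have := div_nonneg (hw0 p) (Nat.cast_nonneg (α := ℝ) p); linarith) h2).trans ?_
    rw [← Real.exp_sum]
    apply Real.exp_le_exp.2
    rw [← sum_filter, ← mul_sum]
    have h3 := sum_inv_sq y Y (by omega)
    have h4 : (k : ℝ) ≤ y / 2 := by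
      rw [le_div_iff₀ (by norm_num)]
      exact_mod_cast (show k * 2 ≤ y by omega)
    calc 4 * (k : ℝ) * ∑ p ∈ (PY Y).filter (fun p => y < p), 1 / (p : ℝ) ^ 2 ≤ 4 * (y / 2) * (1 / y) := by gcongr
      _ = 2 := by field_simp; norm_num
  have h2 : (#((Icc 1 Y).filter fun d => 2 < gy y d) : ℝ) * 2 ^ k ≤ ∑ h ∈ Icc 1 Y, ∏ p ∈ h.primeFactors, (1 + w p) := by
    calc (#((Icc 1 Y).filter fun d => 2 < gy y d) : ℝ) * 2 ^ k = ∑ d ∈ (Icc 1 Y).filter (fun d => 2 < gy y d), (2 : ℝ) ^ k := by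
          rw [sum_const, nsmul_eq_mul]
      _ ≤ ∑ d ∈ (Icc 1 Y).filter (fun d => 2 < gy y d), ∏ p ∈ d.primeFactors, (1 + w p) := by
          apply sum_le_sum
          intro d hd
          exact (pow_le_pow_left₀ (by norm_num) (mem_filter.1 hd).2.le k).trans (gy_pow_le y k d (by omega))
      _ ≤ _ := by
          apply sum_le_sum_of_subset_of_nonneg (filter_subset _ _)
          intro d _ _
          exact prod_nonneg fun p _ => by linarith [hw0 p]
  have h3 : (#((Icc 1 Y).filter fun d => 2 < gy y d) : ℝ) * 2 ^ k ≤ Y * Real.exp 2 :=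
    h2.trans (hm.trans (mul_le_mul_of_nonneg_left h1 (Nat.cast_nonneg _)))
  have h4 : (2 : ℝ) ^ ((y : ℝ) / 2) ≤ 2 * 2 ^ k := by
    have h5 : (y : ℝ) / 2 ≤ k + 1 := by
      rw [div_le_iff₀ (by norm_num)]
      exact_mod_cast (show y ≤ (k + 1) * 2 by omega)
    calc (2 : ℝ) ^ ((y : ℝ) / 2) ≤ 2 ^ ((k : ℝ) + 1) := Real.rpow_le_rpow_of_exponent_le (by norm_num) h5
      _ = 2 * 2 ^ k := by rw [Real.rpow_add (by norm_num), Real.rpow_one, Real.rpow_natCast]; ring
  rw [le_div_iff₀ (by positivity)]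
  have hc : (0 : ℝ) ≤ (#((Icc 1 Y).filter fun d => 2 < gy y d) : ℝ) := Nat.cast_nonneg _
  calc (#((Icc 1 Y).filter fun d => 2 < gy y d) : ℝ) * 2 ^ ((y : ℝ) / 2) ≤ (#((Icc 1 Y).filter fun d => 2 < gy y d) : ℝ) * (2 * 2 ^ k) := by gcongr
    _ ≤ _ := by linarith

theorem dens (A : ℕ) : ∃ X0 : ℕ, ∀ X : ℕ, X0 ≤ X → ∀ y : ℕ, 3 * (A + 1) * Real.log (Real.log X) ≤ y →
    (#((Icc 1 X).filter fun d => 2 < gy y d) : ℝ) ≤ X / Real.log X ^ A := by
  obtain ⟨X1, h1⟩ := ev_L' (Real.exp 100)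
  refine ⟨X1, fun X hX y hy => ?_⟩
  have hL := h1 X hX
  set L := Real.log X with hLd
  have hL0 : 0 < L := lt_of_lt_of_le (Real.exp_pos _) hL
  have hll : 100 ≤ Real.log L := by
    rw [← Real.log_exp 100]
    exact Real.log_le_log (Real.exp_pos _) hL
  have hA : (0 : ℝ) ≤ A := Nat.cast_nonneg _
  have hy2 : 2 ≤ y := by
    have : (2 : ℝ) ≤ y := by nlinarith
    exact_mod_cast this
  refine (dens_aux y X hy2).trans ?_
  have hl2 := Real.log_two_gt_d9
  have h2 : Real.exp 2 * 2 * L ^ A ≤ 2 ^ ((y : ℝ) / 2) := by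
    rw [Real.rpow_def_of_pos (by norm_num)]
    have e1 : L ^ A = Real.exp (A * Real.log L) := by rw [Real.exp_nat_mul, Real.exp_log hL0]
    have e2 : (2 : ℝ) ≤ Real.exp 1 := by have := Real.add_one_le_exp (1 : ℝ); linarith
    calc Real.exp 2 * 2 * L ^ A ≤ Real.exp 2 * Real.exp 1 * Real.exp (A * Real.log L) := by rw [e1]; gcongr
      _ = Real.exp (3 + A * Real.log L) := by rw [← Real.exp_add, ← Real.exp_add]; congr 1; ring
      _ ≤ _ := by
          apply Real.exp_le_exp.2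
          have h3 : 3 * (A + 1) * Real.log L * (0.69 / 2) ≤ Real.log 2 * (y / 2) := by
            have h4 : (0 : ℝ) ≤ y := Nat.cast_nonneg _
            nlinarith
          nlinarith
  rw [div_le_div_iff₀ (by positivity) (by positivity)]
  have hX0 : (0 : ℝ) ≤ X := Nat.cast_nonneg _
  nlinarith

end Pool.Agent.X28.CS
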