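import Pool.Agent.H352R3.FK.Exc

set_option autoImplicit false

/-! The exceptional set bound with a general bounded weight. -/

namespace Pool.Agent.X28.CS

open Finset
open Pool.Agent.H807R2.Dav
open Pool.Agent.H373R2.T7
open Pool.Agent.H352R3.FK
open ArithmeticFunction (vonMangoldt)

/-- the correlation of a weight with the difference of `Λ` and its model -/
noncomputable def corw (f : ℕ → ℝ) (z H : ℕ) (I : Finset ℕ) (k : ℤ) : ℝ :=
  ∑ n ∈ I, f n * hh z H (n + k)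

noncomputable def excW (f : ℕ → ℝ) (z X U : ℕ) (I : Finset ℕ) : Finset ℤ :=
  (Icc (-((4 * X : ℕ) : ℤ)) ((4 * X : ℕ) : ℤ)).filter (fun k => (X : ℝ) / Real.log X ^ U < |corw f z (6 * X) I k|)

theorem excw (U : ℕ) : ∃ B : ℕ, ∀ E : ℕ, ∃ X0 : ℕ, ∀ X : ℕ, X0 ≤ X → ∀ z : ℕ, Real.log ((6 * X : ℕ) : ℝ) ^ B ≤ z →
    (z : ℝ) ≤ Real.log ((6 * X : ℕ) : ℝ) ^ E → ∀ I : Finset ℕ, I ⊆ Icc 1 X → ∀ f : ℕ → ℝ,
    (∀ n ∈ I, |f n| ≤ Real.log X) →
    ((excW f z X U I).card : ℝ) ≤ X / Real.log X ^ U := by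
  obtain ⟨B, hB⟩ := sup_diff (2 * U + 2)
  refine ⟨B, fun E => ?_⟩
  obtain ⟨N0, hN0⟩ := hB E
  obtain ⟨x1, hx1⟩ := ev_L' 6
  refine ⟨max (max N0 x1) 2, fun X hX z hz1 hz2 I hI f hf => ?_⟩
  have hXN0 : N0 ≤ X := le_trans (le_trans (le_max_left _ _) (le_max_left _ _)) hX
  have hL6 : 6 ≤ Real.log X := hx1 X (le_trans (le_trans (le_max_right _ _) (le_max_left _ _)) hX)
  have hX2 : 2 ≤ X := le_trans (le_max_right _ _) hX
  have hX0 : (0 : ℝ) < X := by exact_mod_cast (by omega : 0 < X)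
  have hsup := hN0 (6 * X) (by omega) z hz1 hz2
  set L := Real.log X with hL
  have hL0 : 0 < L := by linarith
  have hLH : L ≤ Real.log ((6 * X : ℕ) : ℝ) := by
    apply Real.log_le_log hX0
    push_cast
    linarith
  set δ : ℝ := ((6 * X : ℕ) : ℝ) / Real.log ((6 * X : ℕ) : ℝ) ^ (2 * U + 2) with hδ
  have hδ1 : δ ≤ 6 * X / L ^ (2 * U + 2) := by
    rw [hδ]
    push_cast
    apply div_le_div_of_nonneg_left (by positivity) (by positivity)
    push_cast at hLH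
    exact pow_le_pow_left₀ hL0.le hLH _
  have hδ0 : 0 ≤ δ := by rw [hδ]; apply div_nonneg (by positivity); apply pow_nonneg; linarith
  have hl2 := corr_l2 1 one_ne_zero I X (6 * X) (4 * X) (fun n hn => (mem_Icc.1 (hI hn)).2)
    (fun n => ((f n : ℝ) : ℂ)) (fun n => ((vonMangoldt n - lamz z n : ℝ) : ℂ)) δ hsup
  -- rewrite as real
  have hreal : ∀ k : ℤ, ‖∑ n ∈ I, ((f n : ℝ) : ℂ) * fz (fun n => ((vonMangoldt n - lamz z n : ℝ) : ℂ)) (6 * X) (1 * n + k)‖ ^ 2 =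
      corw f z (6 * X) I k ^ 2 := by
    intro k
    have h1 : ∑ n ∈ I, ((f n : ℝ) : ℂ) * fz (fun n => ((vonMangoldt n - lamz z n : ℝ) : ℂ)) (6 * X) (1 * n + k) =
        ((corw f z (6 * X) I k : ℝ) : ℂ) := by
      unfold corw
      rw [Complex.ofReal_sum]
      apply sum_congr rfl
      intro n _
      rw [Complex.ofReal_mul, one_mul]
      congr 1
      unfold fz hh
      split_ifs
      · rfl
      · simp
    rw [h1, Complex.norm_real, Real.norm_eq_abs, sq_abs]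
  rw [sum_congr rfl (fun k _ => hreal k)] at hl2
  have hΛ : ∑ n ∈ I, ‖((f n : ℝ) : ℂ)‖ ^ 2 ≤ X * L ^ 2 := by
    have h1 : ∀ n ∈ I, ‖((f n : ℝ) : ℂ)‖ ^ 2 ≤ L ^ 2 := by
      intro n hn
      rw [Complex.norm_real, Real.norm_eq_abs]
      exact pow_le_pow_left₀ (abs_nonneg _) (hf n hn) 2
    refine (sum_le_sum h1).trans ?_
    rw [sum_const, nsmul_eq_mul]
    apply mul_le_mul_of_nonneg_right _ (by positivity)
    have := card_le_card hI
    rw [Nat.card_Icc] at this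
    exact_mod_cast this
  have hcheb : ((excW f z X U I).card : ℝ) * (X / L ^ U) ^ 2 ≤ ∑ k ∈ Icc (-((4 * X : ℕ) : ℤ)) ((4 * X : ℕ) : ℤ), corw f z (6 * X) I k ^ 2 := by
    have h1 : ((excW f z X U I).card : ℝ) * (X / L ^ U) ^ 2 = ∑ k ∈ excW f z X U I, (X / L ^ U) ^ 2 := by
      rw [sum_const, nsmul_eq_mul]
    rw [h1]
    refine le_trans (sum_le_sum (g := fun k => corw f z (6 * X) I k ^ 2) ?_) ?_
    · intro k hk
      unfold excW at hk
      rw [mem_filter] at hk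
      rw [← sq_abs (corw f z (6 * X) I k)]
      exact pow_le_pow_left₀ (by positivity) hk.2.le 2
    · apply sum_le_sum_of_subset_of_nonneg
      · exact filter_subset _ _
      · intro k _ _; positivity
  have h5 : ((excW f z X U I).card : ℝ) * (X / L ^ U) ^ 2 ≤ (6 * X / L ^ (2 * U + 2)) ^ 2 * (X * L ^ 2) := by
    refine hcheb.trans (hl2.trans ?_)
    apply mul_le_mul (pow_le_pow_left₀ hδ0 hδ1 2) hΛ (sum_nonneg fun _ _ => by positivity) (by positivity)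
  have h6 : (6 * X / L ^ (2 * U + 2)) ^ 2 * (X * L ^ 2) = 36 / L ^ (U + 2) * (X / L ^ U * (X / L ^ U) ^ 2) := by
    have e1 : L ^ (2 * U + 2) = L ^ U * L ^ U * L ^ 2 := by rw [← pow_add, ← pow_add]; congr 1; ring
    have e2 : L ^ (U + 2) = L ^ U * L ^ 2 := pow_add _ _ _
    rw [e1, e2]
    field_simp
    ring
  have h7 : 36 / L ^ (U + 2) ≤ 1 := by
    rw [div_le_one (by positivity)]
    calc (36 : ℝ) = 6 ^ 2 := by norm_num
      _ ≤ L ^ 2 := pow_le_pow_left₀ (by norm_num) hL6 2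
      _ ≤ L ^ (U + 2) := pow_le_pow_right₀ (by linarith) (by omega)
  have h8 : ((excW f z X U I).card : ℝ) * (X / L ^ U) ^ 2 ≤ X / L ^ U * (X / L ^ U) ^ 2 := by
    rw [h6] at h5
    refine h5.trans ?_
    have : 0 ≤ X / L ^ U * (X / L ^ U) ^ 2 := by positivity
    nlinarith
  exact le_of_mul_le_mul_right h8 (by positivity)

end Pool.Agent.X28.CS
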