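import Pool.Agent.X28.CS.Win
import Pool.Agent.H352R3.FK.Cnt

set_option autoImplicit false

/-! The first moment: few indices with few common shifts. -/

namespace Pool.Agent.X28.CS

open Finset
open Pool.Agent.H373R2.T7
open Pool.Agent.H352R3.FK
open ArithmeticFunction (vonMangoldt)

/-- the multiples `M g` in the window which carry both numbers to primes -/
def two (M g0 G a b : ℕ) : Finset ℕ := (Ioc g0 (g0 + G)).filter fun g => (a + M * g).Prime ∧ (b + M * g).Prime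

lemma np_sum (X M g0 G a : ℕ) (hM : 1 ≤ M) (ha : 1 ≤ a) (haX : a + M * (g0 + G) ≤ X) :
    ∑ g ∈ Ioc g0 (g0 + G), (if (a + M * g).Prime then 0 else vonMangoldt (a + M * g)) ≤ NP X := by
  have hinj : Set.InjOn (fun g => a + M * g) (Ioc g0 (g0 + G) : Finset ℕ) := by
    intro x _ z _ h
    simp only at h
    exact Nat.eq_of_mul_eq_mul_left (by omega : 0 < M) (by omega)
  rw [← sum_image (f := fun n => if n.Prime then (0 : ℝ) else vonMangoldt n) (g := fun g => a + M * g) hinj]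
  unfold NP
  rw [sum_filter]
  have h1 : ∀ n : ℕ, (if n.Prime then (0 : ℝ) else vonMangoldt n) = if ¬ n.Prime then vonMangoldt n else 0 := by
    intro n
    split_ifs <;> rfl
  rw [sum_congr rfl fun n _ => h1 n]
  apply sum_le_sum_of_subset_of_nonneg
  · intro n hn
    rw [mem_image] at hn
    obtain ⟨g, hg, rfl⟩ := hn
    rw [mem_Ioc] at hg ⊢
    have : M * g ≤ M * (g0 + G) := Nat.mul_le_mul_left _ hg.2
    constructor <;> omega
  · intro n _ _
    split_ifs
    · exact le_rfl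
    · exact ArithmeticFunction.vonMangoldt_nonneg

lemma toCount (X M g0 G a b : ℕ) (hM : 1 ≤ M) (ha : 1 ≤ a) (hb : 1 ≤ b) (haX : a + M * (g0 + G) ≤ X)
    (hbX : b + M * (g0 + G) ≤ X) :
    ∑ g ∈ Ioc g0 (g0 + G), vonMangoldt (a + M * g) * vonMangoldt (b + M * g) ≤
      Real.log X ^ 2 * (#(two M g0 G a b) : ℝ) + 2 * Real.log X * NP X := by
  set L := Real.log X with hL
  have hL0 : 0 ≤ L := Real.log_natCast_nonneg X
  have hΛ : ∀ n : ℕ, 1 ≤ n → n ≤ X → vonMangoldt n ≤ L := by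
    intro n h1 h2
    refine ArithmeticFunction.vonMangoldt_le_log.trans ?_
    apply Real.log_le_log
    · exact_mod_cast h1
    · exact_mod_cast h2
  have h1 : ∀ g ∈ Ioc g0 (g0 + G), vonMangoldt (a + M * g) * vonMangoldt (b + M * g) ≤
      L ^ 2 * (if (a + M * g).Prime ∧ (b + M * g).Prime then (1 : ℝ) else 0) +
      L * (if (a + M * g).Prime then 0 else vonMangoldt (a + M * g)) +
      L * (if (b + M * g).Prime then 0 else vonMangoldt (b + M * g)) := by
    intro g hg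
    rw [mem_Ioc] at hg
    have hm : M * g ≤ M * (g0 + G) := Nat.mul_le_mul_left _ hg.2
    have u1 := hΛ (a + M * g) (by omega) (by omega)
    have u2 := hΛ (b + M * g) (by omega) (by omega)
    have u3 : (0 : ℝ) ≤ vonMangoldt (a + M * g) := ArithmeticFunction.vonMangoldt_nonneg
    have u4 : (0 : ℝ) ≤ vonMangoldt (b + M * g) := ArithmeticFunction.vonMangoldt_nonneg
    by_cases p1 : (a + M * g).Prime
    · by_cases p2 : (b + M * g).Prime
      · rw [if_pos ⟨p1, p2⟩, if_pos p1, if_pos p2]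
        nlinarith
      · rw [if_neg (fun h => p2 h.2), if_pos p1, if_neg p2]
        nlinarith
    · rw [if_neg (fun h => p1 h.1), if_neg p1]
      have : (0 : ℝ) ≤ L * (if (b + M * g).Prime then 0 else vonMangoldt (b + M * g)) := by
        apply mul_nonneg hL0
        split_ifs
        · exact le_rfl
        · exact u4
      nlinarith
  refine (sum_le_sum h1).trans ?_
  rw [sum_add_distrib, sum_add_distrib, ← mul_sum, ← mul_sum, ← mul_sum]
  have h2 : ∑ g ∈ Ioc g0 (g0 + G), (if (a + M * g).Prime ∧ (b + M * g).Prime then (1 : ℝ) else 0) = (#(two M g0 G a b) : ℝ) := by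
    unfold two
    rw [card_filter]
    push_cast
    rfl
  rw [h2]
  have h3 := mul_le_mul_of_nonneg_left (np_sum X M g0 G a hM ha haX) hL0
  have h4 := mul_le_mul_of_nonneg_left (np_sum X M g0 G b hM hb hbX) hL0
  linarith

lemma union_bd {ι : Type*} [DecidableEq ι] (K : Finset ℕ) (D : ℕ → ℤ) (hD : Set.InjOn D K) (σ : ℕ → ι)
    (Ex : ι → Finset ℤ) (B : ℝ) (hB0 : 0 ≤ B) (hB : ∀ k ∈ K, (#(Ex (σ k)) : ℝ) ≤ B) (R : Finset ι) (hR : ∀ k ∈ K, σ k ∈ R) :
    (#(K.filter (fun k => D k ∈ Ex (σ k))) : ℝ) ≤ #R * B := by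
  classical
  set K' := K.filter (fun k => D k ∈ Ex (σ k)) with hK'
  have h1 : #K' = ∑ s ∈ K.image σ, #(K'.filter (fun k => σ k = s)) := by
    apply card_eq_sum_card_fiberwise
    intro k hk
    exact mem_coe.2 (mem_image_of_mem σ (mem_filter.1 (mem_coe.1 hk)).1)
  have h2 : ∀ s ∈ K.image σ, (#(K'.filter (fun k => σ k = s)) : ℝ) ≤ B := by
    intro s hs
    obtain ⟨k0, hk0, rfl⟩ := mem_image.1 hs
    refine le_trans ?_ (hB k0 hk0)
    apply Nat.cast_le.2
    apply card_le_card_of_injOn D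
    · intro k hk
      have hk' := mem_filter.1 (mem_coe.1 hk)
      have := (mem_filter.1 hk'.1).2
      rw [hk'.2] at this
      exact mem_coe.2 this
    · intro x hx z hz h
      exact hD (mem_coe.2 (mem_filter.1 (mem_filter.1 (mem_coe.1 hx)).1).1)
        (mem_coe.2 (mem_filter.1 (mem_filter.1 (mem_coe.1 hz)).1).1) h
  have h3 : K.image σ ⊆ R := by
    intro s hs
    obtain ⟨k0, hk0, rfl⟩ := mem_image.1 hs
    exact hR k0 hk0
  rw [h1]
  push_cast
  refine (sum_le_sum h2).trans ?_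
  rw [sum_const, nsmul_eq_mul]
  apply mul_le_mul_of_nonneg_right _ hB0
  exact_mod_cast card_le_card h3

/-- data of one family -/
structure Fam (X y M g0 G : ℕ) (K : Finset ℕ) (a b : ℕ → ℕ) : Prop where
  hM : 1 ≤ M
  hMp : ∀ p : ℕ, p.Prime → (p ∣ M ↔ p ≤ y)
  ha : ∀ k ∈ K, 1 ≤ a k
  hb : ∀ k ∈ K, 1 ≤ b k
  haX : ∀ k ∈ K, a k + M * (g0 + G) ≤ X
  hbX : ∀ k ∈ K, b k + M * (g0 + G) ≤ X
  hac : ∀ k ∈ K, ∀ p : ℕ, p.Prime → p ≤ y → ¬ p ∣ a k
  hbc : ∀ k ∈ K, ∀ p : ℕ, p.Prime → p ≤ y → ¬ p ∣ b k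
  inj : Set.InjOn (fun k => (b k : ℤ) - a k) K

theorem first (A C : ℕ) : ∃ X0 : ℕ, ∀ X : ℕ, X0 ≤ X → ∀ (y M g0 G : ℕ) (K : Finset ℕ) (a b : ℕ → ℕ),
    Fam X y M g0 G K a b → 2 ≤ y → (y : ℝ) ≤ Real.log X → (M : ℝ) ≤ Real.log X ^ C → (X : ℝ) ≤ M * G * Real.log X ^ C →
    (#(K.filter fun k => (#(two M g0 G (a k) (b k)) : ℝ) < (Vz y)⁻¹ ^ 2 * G / (16 * Real.log X ^ 2)) : ℝ) ≤
      X / Real.log X ^ A := by
  set U := A + 2 * C + 2 with hU
  obtain ⟨B, hB⟩ := excw U
  set E := B + 2 with hE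
  obtain ⟨X1, h1⟩ := hB E
  obtain ⟨X2, h2⟩ := choice 2 (E + 1) (2 * C + 3) 4
  obtain ⟨X3, h3⟩ := Vz_inv_small (E + 1)
  obtain ⟨X4, h4⟩ := ev_L' (2 ^ E + 40)
  obtain ⟨X5, h5⟩ := ev_log' (2 * C + 3) 6
  refine ⟨max (max X1 X2) (max X3 (max X4 (max X5 6))), fun X hX y M g0 G K a b hF hy hyL hML hG => ?_⟩
  have hX1 : X1 ≤ X := le_trans (le_trans (le_max_left _ _) (le_max_left _ _)) hX
  have hX2 : X2 ≤ X := le_trans (le_trans (le_max_right _ _) (le_max_left _ _)) hX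
  have hX3 : X3 ≤ X := by omega
  have hX4 : X4 ≤ X := by omega
  have hX5 : X5 ≤ X := by omega
  have hX6 : 6 ≤ X := by omega
  have hL4 := h4 X hX4
  have hs5 := h5 X hX5
  set L := Real.log X with hL
  have hX0 : (0 : ℝ) < X := by exact_mod_cast (show 0 < X by omega)
  have h2E : (1 : ℝ) ≤ 2 ^ E := one_le_pow₀ (by norm_num)
  have hL40 : 40 ≤ L := by linarith
  have hL0 : 0 < L := by linarith
  have hL1 : 1 ≤ L := by linarith
  set L6 := Real.log ((6 * X : ℕ) : ℝ) with hL6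
  have hL6a : L ≤ L6 := by
    apply Real.log_le_log hX0
    push_cast
    linarith
  have hL6b : L6 ≤ 2 * L := by
    rw [hL6]
    push_cast
    rw [Real.log_mul (by norm_num) hX0.ne']
    have : Real.log 6 ≤ L := Real.log_le_log (by norm_num) (by exact_mod_cast hX6)
    linarith
  have hL61 : 1 ≤ L6 := by linarith
  -- the sieve level
  set z := ⌈L6 ^ (B + 1)⌉₊ with hz
  have hz1 : L6 ^ (B + 1) ≤ z := Nat.le_ceil _
  have hz2 : (z : ℝ) ≤ L6 ^ E := by
    have h := (Nat.ceil_lt_add_one (show 0 ≤ L6 ^ (B + 1) by positivity)).le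
    refine h.trans ?_
    rw [hE, pow_succ L6 (B + 1)]
    have : 1 ≤ L6 ^ (B + 1) := one_le_pow₀ hL61
    nlinarith
  have hzB : L6 ^ B ≤ z := le_trans (pow_le_pow_right₀ hL61 (by omega)) hz1
  have hzE : (z : ℝ) ≤ L ^ (E + 1) := by
    refine hz2.trans ?_
    calc L6 ^ E ≤ (2 * L) ^ E := by gcongr
      _ = 2 ^ E * L ^ E := mul_pow _ _ _
      _ ≤ L * L ^ E := by gcongr; linarith
      _ = L ^ (E + 1) := by ring
  have hyz : y ≤ z := by
    have : (y : ℝ) ≤ z := by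
      refine hyL.trans (hL6a.trans (le_trans ?_ hz1))
      exact le_self_pow₀ hL61 (by omega)
    exact_mod_cast this
  have hz1' : 1 ≤ z := by omega
  obtain ⟨r, hr1, hr2, -⟩ := h2 X hX2 z hzE
  have hV := h3 X hX3 z hz1' hzE
  have hV0 : 0 < (Vz z)⁻¹ := inv_pos.2 (Vz_pos z)
  -- exceptional sets
  have hexc := h1 X hX1 z hzB hz2
  -- the length of the cells
  have hG0 : (0 : ℝ) < M * G := by
    by_contra hlt
    push Not at hlt
    have : (M : ℝ) * G * L ^ C ≤ 0 := mul_nonpos_of_nonpos_of_nonneg hlt (by positivity)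
    linarith
  set H := M * G / 8 with hH
  have hMr : (1 : ℝ) ≤ M := by exact_mod_cast hF.hM
  have hMG : (16 : ℝ) ≤ M * G := by
    have h6 : 6 * L ^ (2 * C + 3) ≤ √(X : ℝ) := hs5
    have h7 : √(X : ℝ) ≤ X := by
      have : (1 : ℝ) ≤ X := by exact_mod_cast (show 1 ≤ X by omega)
      rw [Real.sqrt_le_left (by positivity)]
      nlinarith
    have h8 : L ^ (2 * C + 3) = L ^ C * (L ^ C * L ^ 3) := by rw [← pow_add, ← pow_add]; congr 1; ring
    have h9 : 6 * (L ^ C * (L ^ C * L ^ 3)) ≤ M * G * L ^ C := by rw [← h8]; linarith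
    have h10 : 6 * (L ^ C * L ^ 3) ≤ M * G := by
      have hLC : 0 < L ^ C := by positivity
      nlinarith
    have h11 : 1 ≤ L ^ C := one_le_pow₀ hL1
    have h12 : 40 ≤ L ^ 3 := by
      calc (40 : ℝ) ≤ L := hL40
        _ ≤ L ^ 3 := le_self_pow₀ hL1 (by norm_num)
    nlinarith
  have hMGn : 16 ≤ M * G := by exact_mod_cast hMG
  have hH1 : 1 ≤ H := by omega
  have hH8 : 8 * H ≤ M * G := Nat.mul_div_le _ _
  have hH16 : M * G ≤ 16 * H := by omega
  -- the bad indices are exceptional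
  set D : ℕ → ℤ := fun k => (b k : ℤ) - a k with hD
  set σ1 : ℕ → ℕ × ℕ := fun k => (a k % M, a k / H) with hσ1
  set σ2 : ℕ → ℕ × ℕ := fun k => (b k % M, b k / H) with hσ2
  set Ex1 : ℕ × ℕ → Finset ℤ := fun s => excW (fun n => vonMangoldt n) z X U (I1 M H g0 G s.1 s.2) with hEx1
  set Ex2 : ℕ × ℕ → Finset ℤ := fun s => excW (lamz z) z X U (I2 M H g0 G s.1 s.2) with hEx2
  set R : Finset (ℕ × ℕ) := range M ×ˢ range (X / H + 1) with hR
  have hsub : (K.filter fun k => (#(two M g0 G (a k) (b k)) : ℝ) < (Vz y)⁻¹ ^ 2 * G / (16 * L ^ 2)) ⊆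
      K.filter (fun k => D k ∈ Ex1 (σ1 k)) ∪ K.filter (fun k => - D k ∈ Ex2 (σ2 k)) := by
    intro k hk
    rw [mem_filter] at hk
    obtain ⟨hkK, hbad⟩ := hk
    by_contra hno
    rw [mem_union, mem_filter, mem_filter, not_or] at hno
    have n1 : D k ∉ Ex1 (σ1 k) := fun h => hno.1 ⟨hkK, h⟩
    have n2 : - D k ∉ Ex2 (σ2 k) := fun h => hno.2 ⟨hkK, h⟩
    have haX := hF.haX k hkK
    have hbX := hF.hbX k hkK
    have e1 : |corw (fun n => vonMangoldt n) z (6 * X) (I1 M H g0 G (a k % M) (a k / H)) ((b k : ℤ) - a k)| ≤ X / L ^ U := by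
      by_contra hlt
      push Not at hlt
      apply n1
      simp only [hEx1, hσ1, hD, excW, mem_filter, mem_Icc]
      exact ⟨by push_cast; omega, hlt⟩
    have e2 : |corw (lamz z) z (6 * X) (I2 M H g0 G (b k % M) (b k / H)) ((a k : ℤ) - b k)| ≤ X / L ^ U := by
      by_contra hlt
      push Not at hlt
      apply n2
      simp only [hEx2, hσ2, hD, excW, mem_filter, mem_Icc]
      have : -((b k : ℤ) - a k) = (a k : ℤ) - b k := by ring
      rw [this]
      exact ⟨by push_cast; omega, hlt⟩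
    have w := window X y z M H g0 G r (a k) (b k) (X / L ^ U) hF.hM hF.hMp hH1 (by omega) (hF.ha k hkK) (hF.hb k hkK)
      haX hbX (hF.hac k hkK) (hF.hbc k hkK) e1 e2
    have t := toCount X M g0 G (a k) (b k) hF.hM (hF.ha k hkK) (hF.hb k hkK) haX hbX
    have np := NP_le X (by omega)
    have pr := prod_ratio y z hy hyz ((b k : ℤ) - a k)
    set P := ∏ p ∈ pyz y z, (1 - (nu ((b k : ℤ) - a k) p : ℝ) / p) with hP
    set cnt := (#(two M g0 G (a k) (b k)) : ℝ) with hcnt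
    -- lower bound of the main term
    have m0 : (5 / 8 : ℝ) * G ≤ ((M : ℝ) * G - 3 * H) / M := by
      rw [le_div_iff₀ (by linarith)]
      have : (8 : ℝ) * H ≤ M * G := by exact_mod_cast hH8
      linarith
    have hVy : 1 ≤ (Vz y)⁻¹ := one_le_inv_iff₀.2 ⟨Vz_pos y, Vz_le_one y⟩
    have m1 : (Vz y)⁻¹ ^ 2 * (5 / 16 * G) ≤ (Vz z)⁻¹ ^ 2 * (((M : ℝ) * G - 3 * H) / M * P) := by
      calc (Vz y)⁻¹ ^ 2 * (5 / 16 * G) = (Vz y)⁻¹ ^ 2 / 2 * (5 / 8 * G) := by ring
        _ ≤ ((Vz z)⁻¹ ^ 2 * P) * (((M : ℝ) * G - 3 * H) / M) := by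
            apply mul_le_mul pr m0 (by positivity)
            refine le_trans ?_ pr
            positivity
        _ = _ := by ring
    -- errors
    have q1 : ((z : ℝ) + 1) ^ r * ((z : ℝ) + 1) ^ r ≤ √(X : ℝ) := by
      rw [← Real.sqrt_sq (by positivity : (0 : ℝ) ≤ ((z : ℝ) + 1) ^ r * ((z : ℝ) + 1) ^ r)]
      apply Real.sqrt_le_sqrt
      refine le_trans (le_of_eq ?_) hr2
      ring
    have q2 : (2 : ℝ) ^ r ≤ ((z : ℝ) + 1) ^ r := by
      have : (1 : ℝ) ≤ z := by exact_mod_cast hz1'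
      exact pow_le_pow_left₀ (by norm_num) (by linarith) r
    have q3 : 2 * 2 ^ r * ((z : ℝ) + 1) ^ r ≤ 2 * √(X : ℝ) := by
      have h0 : 0 ≤ ((z : ℝ) + 1) ^ r := by positivity
      nlinarith
    have q4 : Real.exp (6 * (1 + Real.log z) - r) ≤ 1 / L ^ (2 * C + 3) := by
      refine le_trans (le_of_eq ?_) hr1
      congr 1
      push_cast
      ring
    have q5 : (Vz z)⁻¹ ^ 2 * (2 * 2 ^ r * ((z : ℝ) + 1) ^ r + 2 * X * Real.exp (6 * (1 + Real.log z) - r)) ≤
        L ^ 2 * (2 * √(X : ℝ) + 2 * X * (1 / L ^ (2 * C + 3))) := by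
      apply mul_le_mul (by gcongr) _ (by positivity) (by positivity)
      apply add_le_add q3
      gcongr
    have q6 : L ^ 2 * (2 * X * (1 / L ^ (2 * C + 3))) = 2 * (X / L ^ (2 * C + 1)) := by
      have : L ^ (2 * C + 3) = L ^ (2 * C + 1) * L ^ 2 := by rw [← pow_add]
      rw [this]
      field_simp
    have q7 : 6 * L ^ 2 * √(X : ℝ) ≤ X / L ^ (2 * C + 1) := by
      rw [le_div_iff₀ (by positivity)]
      calc 6 * L ^ 2 * √(X : ℝ) * L ^ (2 * C + 1) = 6 * L ^ (2 * C + 3) * √(X : ℝ) := by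
            have : L ^ (2 * C + 3) = L ^ (2 * C + 1) * L ^ 2 := by rw [← pow_add]
            rw [this]; ring
        _ ≤ √(X : ℝ) * √(X : ℝ) := by gcongr
        _ = X := Real.mul_self_sqrt hX0.le
    have q8 : (X : ℝ) / L ^ U ≤ X / L ^ (2 * C + 1) := by
      apply div_le_div_of_nonneg_left hX0.le (by positivity)
      exact pow_le_pow_right₀ hL1 (by omega)
    have q9 : (X : ℝ) / L ^ (2 * C + 1) ≤ G / 40 := by
      rw [div_le_iff₀ (by positivity)]
      calc (X : ℝ) ≤ M * G * L ^ C := hG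
        _ ≤ L ^ C * G * L ^ C := by gcongr
        _ = G / 40 * (L ^ (2 * C) * 40) := by ring
        _ ≤ G / 40 * (L ^ (2 * C) * L) := by gcongr
        _ = G / 40 * L ^ (2 * C + 1) := by rw [pow_succ]
    have q10 : 2 * L * NP X ≤ 4 * L ^ 2 * √(X : ℝ) := by
      have := mul_le_mul_of_nonneg_left np (show 0 ≤ 2 * L by linarith)
      calc 2 * L * NP X ≤ 2 * L * (2 * √(X : ℝ) * Real.log X) := this
        _ = 4 * L ^ 2 * √(X : ℝ) := by rw [← hL]; ring
    have q11 : (G : ℝ) ≤ (Vz y)⁻¹ ^ 2 * G := by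
      have h0 : (0 : ℝ) ≤ G := Nat.cast_nonneg _
      have : 1 ≤ (Vz y)⁻¹ ^ 2 := one_le_pow₀ hVy
      nlinarith
    have final : (Vz y)⁻¹ ^ 2 * G / 16 ≤ L ^ 2 * cnt := by
      have e0 : (Vz z)⁻¹ ^ 2 * (((M : ℝ) * G - 3 * H) / M * P -
          (2 * 2 ^ r * ((z : ℝ) + 1) ^ r + 2 * X * Real.exp (6 * (1 + Real.log z) - r))) =
          (Vz z)⁻¹ ^ 2 * (((M : ℝ) * G - 3 * H) / M * P) -
          (Vz z)⁻¹ ^ 2 * (2 * 2 ^ r * ((z : ℝ) + 1) ^ r + 2 * X * Real.exp (6 * (1 + Real.log z) - r)) := by ring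
      rw [e0] at w
      nlinarith [m1, q5, q6, q7, q8, q9, q10, q11, w, t]
    rw [lt_div_iff₀ (by positivity)] at hbad
    linarith
  -- cardinality
  have hXU : (0 : ℝ) ≤ X / L ^ U := by positivity
  have hR1 : ∀ k ∈ K, σ1 k ∈ R := by
    intro k hk
    simp only [hσ1, hR, mem_product, mem_range]
    refine ⟨Nat.mod_lt _ hF.hM, ?_⟩
    have h1 := hF.haX k hk
    have : a k / H ≤ X / H := Nat.div_le_div_right (by omega)
    omega
  have hR2 : ∀ k ∈ K, σ2 k ∈ R := by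
    intro k hk
    simp only [hσ2, hR, mem_product, mem_range]
    refine ⟨Nat.mod_lt _ hF.hM, ?_⟩
    have h1 := hF.hbX k hk
    have : b k / H ≤ X / H := Nat.div_le_div_right (by omega)
    omega
  have c1 := union_bd K D hF.inj σ1 Ex1 (X / L ^ U) hXU (by
    intro k hk
    apply hexc
    · intro s hs
      simp only [hσ1] at hs
      unfold I1 at hs
      rw [mem_filter, mem_Ioc] at hs
      have h1 := hF.haX k hk
      have h2 := (div_bd (a k) H hH1).1
      rw [mem_Icc]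
      constructor <;> omega
    · intro s hs
      simp only [hσ1] at hs
      unfold I1 at hs
      rw [mem_filter, mem_Ioc] at hs
      have h1 := hF.haX k hk
      have h2 := (div_bd (a k) H hH1).1
      rw [abs_of_nonneg ArithmeticFunction.vonMangoldt_nonneg]
      refine ArithmeticFunction.vonMangoldt_le_log.trans ?_
      apply Real.log_le_log
      · exact_mod_cast (show 0 < s by omega)
      · exact_mod_cast (show s ≤ X by omega)) R hR1
  have c2 := union_bd K (fun k => - D k) (by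
    intro x hx w hw h
    simp only [neg_inj] at h
    exact hF.inj hx hw h) σ2 Ex2 (X / L ^ U) hXU (by
    intro k hk
    apply hexc
    · intro s hs
      simp only [hσ2] at hs
      unfold I2 at hs
      rw [mem_filter, mem_Ioc] at hs
      have h1 := hF.hbX k hk
      have h2 := (div_bd (b k) H hH1).1
      rw [mem_Icc]
      constructor <;> omega
    · intro s hs
      rw [abs_of_nonneg (lamz_nonneg _ _)]
      refine le_trans ?_ hV
      unfold lamz
      split_ifs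
      · exact le_rfl
      · exact hV0.le) R hR2
  have hRc : (#R : ℝ) ≤ 17 * L ^ (2 * C) := by
    have h1 : (#R : ℝ) = M * ((X / H : ℕ) + 1) := by
      rw [hR, card_product, card_range, card_range]
      push_cast
      rfl
    have h2 : ((X / H : ℕ) : ℝ) ≤ 16 * L ^ C := by
      refine Nat.cast_div_le.trans ?_
      rw [div_le_iff₀ (by exact_mod_cast hH1)]
      have h3 : (M : ℝ) * G ≤ 16 * H := by exact_mod_cast hH16
      calc (X : ℝ) ≤ M * G * L ^ C := hG
        _ ≤ 16 * H * L ^ C := by gcongr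
        _ = 16 * L ^ C * H := by ring
    have h4 : 1 ≤ L ^ C := one_le_pow₀ hL1
    rw [h1]
    calc (M : ℝ) * ((X / H : ℕ) + 1) ≤ L ^ C * (16 * L ^ C + L ^ C) := by gcongr
      _ = 17 * L ^ (2 * C) := by rw [two_mul, pow_add]; ring
  calc (#(K.filter fun k => (#(two M g0 G (a k) (b k)) : ℝ) < (Vz y)⁻¹ ^ 2 * G / (16 * L ^ 2)) : ℝ)
      ≤ #(K.filter (fun k => D k ∈ Ex1 (σ1 k)) ∪ K.filter (fun k => - D k ∈ Ex2 (σ2 k))) := by
        exact_mod_cast card_le_card hsub
    _ ≤ #(K.filter (fun k => D k ∈ Ex1 (σ1 k))) + #(K.filter (fun k => - D k ∈ Ex2 (σ2 k))) := by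
        exact_mod_cast card_union_le _ _
    _ ≤ #R * (X / L ^ U) + #R * (X / L ^ U) := add_le_add c1 c2
    _ ≤ 17 * L ^ (2 * C) * (X / L ^ U) + 17 * L ^ (2 * C) * (X / L ^ U) := by gcongr
    _ = 34 / L ^ 2 * (X / L ^ A) := by
        have : L ^ U = L ^ A * L ^ (2 * C) * L ^ 2 := by rw [hU, pow_add, pow_add]
        rw [this]
        field_simp
        ring
    _ ≤ 1 * (X / L ^ A) := by
        apply mul_le_mul_of_nonneg_right _ (by positivity)
        rw [div_le_one (by positivity)]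
        nlinarith
    _ = X / L ^ A := one_mul _

end Pool.Agent.X28.CS
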