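import Pool.Agent.X28.CS.Dens
import Pool.Agent.X28.CS.First
import Pool.Agent.H378R2.PS.P0

set_option autoImplicit false

/-! An upper bound for the number of common shifts of four numbers. -/

namespace Pool.Agent.X28.CS

open Finset
open Pool.Agent.H373R2.T7

/-- the multiples `M g` in the window which carry all four numbers to primes -/
def four (M g0 G : ℕ) (u : Fin 4 → ℕ) : Finset ℕ := (Ioc g0 (g0 + G)).filter fun g => ∀ i, (u i + M * g).Prime

/-- the differences -/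
def dlt (u : Fin 4 → ℕ) (x : Fin 4 × Fin 4) : ℕ := ((u x.1 : ℤ) - u x.2).natAbs

lemma prod_biUnion_le {ι : Type*} [DecidableEq ι] (S : Finset ι) (f : ι → Finset ℕ) (F : ℕ → ℝ) (hF : ∀ p, 1 ≤ F p ∨ ∀ i ∈ S, p ∉ f i) :
    ∏ p ∈ S.biUnion f, F p ≤ ∏ i ∈ S, ∏ p ∈ f i, F p ∧ 1 ≤ ∏ p ∈ S.biUnion f, F p := by
  classical
  induction S using Finset.induction_on with
  | empty => simp
  | insert i S hi ih =>
    have hF' : ∀ p, 1 ≤ F p ∨ ∀ i ∈ S, p ∉ f i := fun p => (hF p).imp id fun h j hj => h j (mem_insert_of_mem hj)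
    obtain ⟨ih1, ih2⟩ := ih hF'
    rw [biUnion_insert, prod_insert hi]
    have h1 : ∀ p ∈ f i, 1 ≤ F p := by
      intro p hp
      rcases hF p with h | h
      · exact h
      · exact absurd hp (h i (mem_insert_self _ _))
    have hge : ∀ T : Finset ℕ, T ⊆ f i → 1 ≤ ∏ p ∈ T, F p := fun T hT => by
      calc (1 : ℝ) = ∏ _p ∈ T, 1 := by rw [prod_const_one]
        _ ≤ _ := prod_le_prod (fun _ _ => zero_le_one) fun p hp => h1 p (hT hp)
    have h2 : ∏ p ∈ f i ∪ S.biUnion f, F p = (∏ p ∈ f i \ S.biUnion f, F p) * ∏ p ∈ S.biUnion f, F p := by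
      rw [← sdiff_union_self_eq_union, prod_union sdiff_disjoint]
    have h3 : ∏ p ∈ f i \ S.biUnion f, F p ≤ ∏ p ∈ f i, F p := by
      have e := prod_inter_mul_prod_sdiff (f i) (S.biUnion f) F
      have g1 := hge (f i ∩ S.biUnion f) inter_subset_left
      have g2 := hge (f i \ S.biUnion f) sdiff_subset
      nlinarith
    have g2 := hge (f i \ S.biUnion f) sdiff_subset
    rw [h2]
    constructor
    · apply mul_le_mul h3 ih1 (by linarith) (by linarith [hge (f i) (Subset.refl _)])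
    · nlinarith

lemma ratio_eq (n : ℕ) (hn : n ≠ 0) : (n : ℝ) / (n.totient : ℝ) = ∏ p ∈ n.primeFactors, (1 - 1 / (p : ℝ))⁻¹ := by
  have h1 : ((Nat.totient n : ℕ) : ℝ) = n * ∏ p ∈ n.primeFactors, (1 - 1 / (p : ℝ)) := by
    have := Nat.totient_eq_mul_prod_factors n
    have h2 : (((Nat.totient n : ℕ) : ℚ) : ℝ) = ((n * ∏ p ∈ n.primeFactors, (1 - (p : ℚ)⁻¹) : ℚ) : ℝ) := by rw [this]
    push_cast at h2
    simp only [one_div]
    exact h2
  have hn0 : (n : ℝ) ≠ 0 := by exact_mod_cast hn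
  rw [h1, prod_inv_distrib]
  field_simp

lemma ratio_bd (y M : ℕ) (u : Fin 4 → ℕ) (hM : 1 ≤ M) (hMp : ∀ p : ℕ, p.Prime → (p ∣ M ↔ p ≤ y))
    (hd : ∀ x ∈ (univ : Finset (Fin 4)).offDiag, dlt u x ≠ 0) (hg : ∀ x ∈ (univ : Finset (Fin 4)).offDiag, gy y (dlt u x) ≤ 2) :
    ((M * ∏ x ∈ (univ : Finset (Fin 4)).offDiag, dlt u x : ℕ) : ℝ) / ((M * ∏ x ∈ (univ : Finset (Fin 4)).offDiag, dlt u x).totient : ℝ) ≤
      (Vz y)⁻¹ * 2 ^ 12 := by
  classical
  set Δ := (univ : Finset (Fin 4)).offDiag with hΔ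
  set n := M * ∏ x ∈ Δ, dlt u x with hn
  have hn0 : n ≠ 0 := Nat.mul_ne_zero (by omega) (prod_ne_zero_iff.2 hd)
  rw [ratio_eq n hn0]
  have hFp : ∀ p : ℕ, p.Prime → 1 ≤ (1 - 1 / (p : ℝ))⁻¹ := by
    intro p hp
    have h2 : (2 : ℝ) ≤ p := by exact_mod_cast hp.two_le
    rw [one_le_inv₀ (by rw [sub_pos, div_lt_one (by linarith)]; linarith)]
    have : 0 ≤ 1 / (p : ℝ) := by positivity
    linarith
  set f : Option (Fin 4 × Fin 4) → Finset ℕ := fun o => match o with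
    | none => pz y
    | some x => (dlt u x).primeFactors.filter (fun p => y < p) with hf
  set S : Finset (Option (Fin 4 × Fin 4)) := insert none (Δ.image some) with hS
  have hsub : n.primeFactors = S.biUnion f ∪ ∅ := by
    rw [union_empty]
    ext p
    rw [mem_biUnion, Nat.mem_primeFactors]
    constructor
    · rintro ⟨hp, hd1, _⟩
      rcases Nat.lt_or_ge y p with h | h
      · have h1 : ¬ p ∣ M := fun h2 => absurd ((hMp p hp).1 h2) (by omega)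
        rw [hn] at hd1
        have h2 := (hp.dvd_mul.1 hd1).resolve_left h1
        obtain ⟨x, hx, hx2⟩ := (Prime.dvd_finsetProd_iff hp.prime _).1 h2
        refine ⟨some x, mem_insert_of_mem (mem_image_of_mem _ hx), ?_⟩
        simp only [hf, mem_filter, Nat.mem_primeFactors]
        exact ⟨⟨hp, hx2, hd x hx⟩, h⟩
      · exact ⟨none, mem_insert_self _ _, mem_pz.2 ⟨h, hp⟩⟩
    · rintro ⟨o, ho, hp⟩
      rw [hS, mem_insert, mem_image] at ho
      rcases ho with rfl | ⟨x, hx, rfl⟩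
      · have h := mem_pz.1 hp
        exact ⟨h.2, ((hMp p h.2).2 h.1).mul_right _, hn0⟩
      · simp only [hf, mem_filter, Nat.mem_primeFactors] at hp
        exact ⟨hp.1.1, (hp.1.2.1.trans (dvd_prod_of_mem _ hx)).mul_left _, hn0⟩
  rw [hsub, union_empty]
  have h1 := (prod_biUnion_le S f (fun p => (1 - 1 / (p : ℝ))⁻¹) (by
    intro p
    by_cases hp : p.Prime
    · exact Or.inl (hFp p hp)
    · right
      intro o ho h
      rw [hS, mem_insert, mem_image] at ho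
      rcases ho with rfl | ⟨x, hx, rfl⟩
      · exact hp (mem_pz.1 h).2
      · simp only [hf, mem_filter, Nat.mem_primeFactors] at h
        exact hp h.1.1)).1
  refine h1.trans ?_
  rw [hS, prod_insert (by simp), prod_image (fun x _ z _ h => Option.some_injective _ h)]
  have h2 : ∏ p ∈ f none, (1 - 1 / (p : ℝ))⁻¹ = (Vz y)⁻¹ := by
    simp only [hf]
    unfold Vz
    rw [prod_inv_distrib]
  rw [h2]
  apply mul_le_mul_of_nonneg_left _ (inv_pos.2 (Vz_pos y)).le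
  have h3 : ∏ x ∈ Δ, ∏ p ∈ f (some x), (1 - 1 / (p : ℝ))⁻¹ ≤ ∏ _x ∈ Δ, (2 : ℝ) := by
    apply prod_le_prod
    · intro x _
      apply prod_nonneg
      intro p hp
      simp only [hf, mem_filter, Nat.mem_primeFactors] at hp
      linarith [hFp p hp.1.1]
    · intro x hx
      exact hg x hx
  refine h3.trans ?_
  rw [prod_const]
  have : #Δ = 12 := by rw [hΔ]; rfl
  rw [this]

/-- the residue of the root -/
noncomputable def rt (p M g0 : ℕ) (a : ℕ) : ℕ := by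
  classical exact if h : ∃ l ∈ range p, p ∣ a + M * (g0 + l) then h.choose else 0

lemma rt_spec (p M g0 a : ℕ) (hp : p.Prime) (hM : ¬ p ∣ M) :
    rt p M g0 a < p ∧ p ∣ a + M * (g0 + rt p M g0 a) := by
  have : Fact p.Prime := ⟨hp⟩
  have h : ∃ l ∈ range p, p ∣ a + M * (g0 + l) := by
    have hM0 : (M : ZMod p) ≠ 0 := by
      rw [Ne, ZMod.natCast_eq_zero_iff]
      exact hM
    refine ⟨(-(a : ZMod p) / M - g0).val, mem_range.2 (ZMod.val_lt _), ?_⟩
    rw [← ZMod.natCast_eq_zero_iff]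
    push_cast
    rw [ZMod.natCast_val, ZMod.cast_id', id]
    field_simp
    ring
  unfold rt
  rw [dif_pos h]
  exact ⟨mem_range.1 h.choose_spec.1, h.choose_spec.2⟩

lemma rt_uniq (p M g0 a l : ℕ) (hp : p.Prime) (hM : ¬ p ∣ M) (hl : l < p) (h : p ∣ a + M * (g0 + l)) : l = rt p M g0 a := by
  obtain ⟨h1, h2⟩ := rt_spec p M g0 a hp hM
  have hcop : Nat.Coprime p M := (Nat.Prime.coprime_iff_not_dvd hp).2 hM
  have h3 : a + M * (g0 + l) ≡ a + M * (g0 + rt p M g0 a) [MOD p] :=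
    ((Nat.modEq_zero_iff_dvd.2 h).trans (Nat.modEq_zero_iff_dvd.2 h2).symm)
  have h4 : M * (g0 + l) ≡ M * (g0 + rt p M g0 a) [MOD p] := Nat.ModEq.add_left_cancel' a h3
  have h5 : g0 + l ≡ g0 + rt p M g0 a [MOD p] := Nat.ModEq.cancel_left_of_coprime hcop h4
  have h6 : l ≡ rt p M g0 a [MOD p] := Nat.ModEq.add_left_cancel' g0 h5
  exact Nat.ModEq.eq_of_lt_of_lt h6 hl h1

lemma rt_inj (p M g0 a b : ℕ) (hp : p.Prime) (hM : ¬ p ∣ M) (hab : ¬ p ∣ ((a : ℤ) - b).natAbs) : rt p M g0 a ≠ rt p M g0 b := by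
  intro h
  obtain ⟨_, h2⟩ := rt_spec p M g0 a hp hM
  obtain ⟨_, h4⟩ := rt_spec p M g0 b hp hM
  rw [h] at h2
  apply hab
  rw [← Int.natCast_dvd]
  have h5 : (p : ℤ) ∣ ((a + M * (g0 + rt p M g0 b) : ℕ) : ℤ) := by exact_mod_cast h2
  have h6 : (p : ℤ) ∣ ((b + M * (g0 + rt p M g0 b) : ℕ) : ℤ) := by exact_mod_cast h4
  have h7 := dvd_sub h5 h6
  push_cast at h7
  have e : (a : ℤ) + M * (g0 + rt p M g0 b) - (b + M * (g0 + rt p M g0 b)) = a - b := by ring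
  rwa [e] at h7

theorem four_le : ∃ C : ℝ, 0 < C ∧ ∀ C0 : ℕ, ∃ X0 : ℕ, ∀ X : ℕ, X0 ≤ X → ∀ (y M g0 G : ℕ) (u : Fin 4 → ℕ),
    17 ≤ y → 1 ≤ M → (∀ p : ℕ, p.Prime → (p ∣ M ↔ p ≤ y)) → (M : ℝ) ≤ Real.log X ^ C0 →
    (X : ℝ) ≤ M * G * Real.log X ^ C0 → 
    (∀ x ∈ (univ : Finset (Fin 4)).offDiag, dlt u x ≠ 0) → (∀ x ∈ (univ : Finset (Fin 4)).offDiag, gy y (dlt u x) ≤ 2) →
    (#(four M g0 G u) : ℝ) ≤ C * (Vz y)⁻¹ ^ 4 * G / Real.log X ^ 4 := by
  classical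
  obtain ⟨C1, hC1, hS⟩ := Pool.Agent.H378R2.PS.sieve_gen 2 (Or.inr rfl)
  refine ⟨C1 * (2 ^ 12) ^ 4 * (4 * 256 ^ 2) + 1, by positivity, fun C0 => ?_⟩
  obtain ⟨X1, h1⟩ := ev_L' 200
  obtain ⟨X2, h2⟩ := ev_log' (2 * C0) 1
  obtain ⟨X3, h3⟩ := ev_log' 8 1
  refine ⟨max X1 (max X2 (max X3 2)), fun X hX y M g0 G u hy hM hMp hML hG hd hg => ?_⟩
  have hL := h1 X (by omega)
  have hs2 := h2 X (by omega)
  have hs3 := h3 X (by omega)
  have hX2 : 2 ≤ X := by omega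
  set L := Real.log X with hLd
  have hX0 : (0 : ℝ) < X := by exact_mod_cast (show 0 < X by omega)
  have hL0 : 0 < L := by linarith
  have hL1 : 1 ≤ L := by linarith
  have hLC : 0 < L ^ C0 := by positivity
  -- the size of `G`
  have hG2 : √(X : ℝ) ≤ G := by
    have e : √(X : ℝ) * √(X : ℝ) = X := Real.mul_self_sqrt hX0.le
    have h4 : (X : ℝ) ≤ G * L ^ (2 * C0) := by
      calc (X : ℝ) ≤ M * G * L ^ C0 := hG
        _ ≤ L ^ C0 * G * L ^ C0 := by gcongr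
        _ = G * L ^ (2 * C0) := by rw [two_mul, pow_add]; ring
    have h5 : (G : ℝ) * L ^ (2 * C0) ≤ G * √(X : ℝ) := by
      rw [one_mul] at hs2
      gcongr
    have h6 : 0 < √(X : ℝ) := Real.sqrt_pos.2 hX0
    nlinarith
  have hG0 : (0 : ℝ) < G := lt_of_lt_of_le (Real.sqrt_pos.2 hX0) hG2
  have hG1n : 1 ≤ G := by exact_mod_cast hG0
  have hG1 : (1 : ℝ) ≤ G := by exact_mod_cast hG1n
  have hlG : L / 2 ≤ Real.log G := by
    have h4 := Real.log_le_log (Real.sqrt_pos.2 hX0) hG2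
    rw [Real.log_sqrt hX0.le] at h4
    exact h4
  -- the level
  set w := ⌊(G : ℝ) ^ (1 / 64 : ℝ)⌋₊ with hw
  have hGp : 0 ≤ (G : ℝ) ^ (1 / 64 : ℝ) := by positivity
  have hw1 : (w : ℝ) ≤ (G : ℝ) ^ (1 / 64 : ℝ) := Nat.floor_le hGp
  have hw2 : (G : ℝ) ^ (1 / 64 : ℝ) < w + 1 := Nat.lt_floor_add_one _
  have hl2 := Real.log_two_lt_d9
  have hGe : (G : ℝ) ^ (1 / 64 : ℝ) = Real.exp (Real.log G / 64) := by
    rw [Real.rpow_def_of_pos hG0]
    congr 1
    ring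
  have hG4 : (4 : ℝ) ≤ (G : ℝ) ^ (1 / 64 : ℝ) := by
    rw [hGe, ← Real.exp_log (show (0 : ℝ) < 4 by norm_num)]
    apply Real.exp_le_exp.2
    have : Real.log 4 = 2 * Real.log 2 := by
      rw [show (4 : ℝ) = 2 ^ 2 by norm_num, Real.log_pow]
      norm_num
    rw [this]
    linarith
  have hw3 : (2 : ℝ) ≤ w := by linarith
  have hw2n : 2 ≤ w := by exact_mod_cast hw3
  have hlw : L / 256 ≤ Real.log w := by
    have h4 : (G : ℝ) ^ (1 / 64 : ℝ) / 2 ≤ w := by linarith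
    have h5 := Real.log_le_log (by linarith) h4
    rw [Real.log_div (by linarith) (by norm_num), hGe, Real.log_exp] at h5
    linarith
  -- the sifted set
  set n := M * ∏ x ∈ (univ : Finset (Fin 4)).offDiag, dlt u x with hn
  have hn0 : n ≠ 0 := Nat.mul_ne_zero (by omega) (prod_ne_zero_iff.2 hd)
  have hratio := ratio_bd y M u hM hMp hd hg
  rw [← hn] at hratio
  set E : ℕ → Finset ℕ := fun p => if p ≤ w then univ.image (fun i : Fin 4 => rt p M g0 (u i))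
    else ({0, 1} : Finset (Fin 4)).image (fun i : Fin 4 => rt p M g0 (u i)) with hE
  have hpn : ∀ p : ℕ, p.Prime → ¬ p ∣ n → y < p ∧ ¬ p ∣ M ∧ ∀ i j : Fin 4, i ≠ j → ¬ p ∣ dlt u (i, j) := by
    intro p hp hpn
    have h4 : ¬ p ∣ M := fun h => hpn (h.mul_right _)
    refine ⟨?_, h4, ?_⟩
    · by_contra hlt
      exact h4 ((hMp p hp).2 (by omega))
    · intro i j hij h
      apply hpn
      apply Dvd.dvd.mul_left
      refine h.trans (dvd_prod_of_mem _ ?_)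
      rw [mem_offDiag]
      exact ⟨mem_univ _, mem_univ _, hij⟩
  have hinj : ∀ p : ℕ, p.Prime → ¬ p ∣ n → Function.Injective (fun i : Fin 4 => rt p M g0 (u i)) := by
    intro p hp hpn' i j hij
    obtain ⟨_, h4, h5⟩ := hpn p hp hpn'
    by_contra hne
    exact rt_inj p M g0 (u i) (u j) hp h4 (h5 i j hne) hij
  have hEp : ∀ p : ℕ, p.Prime → ¬ p ∣ n → 17 ≤ p ∧ E p ⊆ Finset.range p ∧
      (p ≤ w → (E p).card = 2 + 2) ∧ (w < p → (E p).card = 2) := by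
    intro p hp hpn'
    obtain ⟨h4, h5, _⟩ := hpn p hp hpn'
    have hi := hinj p hp hpn'
    refine ⟨by omega, ?_, ?_, ?_⟩
    · intro l hl
      simp only [hE] at hl
      rw [mem_range]
      split_ifs at hl
      · obtain ⟨i, _, rfl⟩ := mem_image.1 hl
        exact (rt_spec p M g0 (u i) hp h5).1
      · obtain ⟨i, _, rfl⟩ := mem_image.1 hl
        exact (rt_spec p M g0 (u i) hp h5).1
    · intro hpw
      simp only [hE]
      rw [if_pos hpw, card_image_of_injective _ hi]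
      rfl
    · intro hpw
      simp only [hE]
      rw [if_neg (by omega), card_image_of_injective _ hi]
      rfl
  set S := (Icc 1 G).filter (fun l : ℕ => (∀ i, (u i + M * (g0 + l)).Prime) ∧ (G : ℝ) ^ (1 / 8 : ℝ) < l) with hSd
  have hsv := hS G n w E S hn0 hEp hw2n hw1 (filter_subset _ _) (by
    intro l hl p hp hpn' hpG hmem
    obtain ⟨h4, h5, _⟩ := hpn p hp hpn'
    rw [hSd, mem_filter, mem_Icc] at hl
    obtain ⟨hl1, hl2, hl3⟩ := hl
    have key : ∀ i : Fin 4, l % p ≠ rt p M g0 (u i) := by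
      intro i hi
      have h6 := (rt_spec p M g0 (u i) hp h5).2
      rw [← hi] at h6
      have h7 : p ∣ u i + M * (g0 + l) := by
        have h8 : u i + M * (g0 + l) = (u i + M * (g0 + l % p)) + p * (M * (l / p)) := by
          have := Nat.mod_add_div l p
          calc u i + M * (g0 + l) = u i + M * (g0 + (l % p + p * (l / p))) := by rw [this]
            _ = _ := by ring
        rw [h8]
        exact dvd_add h6 (dvd_mul_right _ _)
      have h8 := (Nat.prime_dvd_prime_iff_eq hp (hl2 i)).1 h7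
      have h9 : l ≤ p := by
        rw [h8]
        have : 1 * l ≤ M * (g0 + l) := Nat.mul_le_mul hM (by omega)
        omega
      have h10 : (l : ℝ) ≤ p := by exact_mod_cast h9
      linarith
    simp only [hE] at hmem
    split_ifs at hmem
    · obtain ⟨i, _, hi⟩ := mem_image.1 hmem
      exact key i hi.symm
    · obtain ⟨i, _, hi⟩ := mem_image.1 hmem
      exact key i hi.symm)
  -- comparison
  have hcard : (#(four M g0 G u) : ℝ) ≤ #S + (G : ℝ) ^ (1 / 8 : ℝ) := by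
    have h4 : four M g0 G u ⊆ S.image (fun l => g0 + l) ∪ (Icc 1 ⌊(G : ℝ) ^ (1 / 8 : ℝ)⌋₊).image (fun l => g0 + l) := by
      intro g hg'
      unfold four at hg'
      rw [mem_filter, mem_Ioc] at hg'
      rw [mem_union, mem_image, mem_image]
      by_cases hlt : (G : ℝ) ^ (1 / 8 : ℝ) < ((g - g0 : ℕ) : ℝ)
      · left
        refine ⟨g - g0, ?_, by omega⟩
        rw [hSd, mem_filter, mem_Icc]
        refine ⟨by omega, fun i => ?_, hlt⟩
        rw [show g0 + (g - g0) = g by omega]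
        exact hg'.2 i
      · right
        refine ⟨g - g0, ?_, by omega⟩
        rw [mem_Icc]
        refine ⟨by omega, Nat.le_floor (not_lt.1 hlt)⟩
    have h5 := (card_le_card h4).trans (card_union_le _ _)
    have h6 : #(S.image (fun l => g0 + l)) ≤ #S := card_image_le
    have h7 : #((Icc 1 ⌊(G : ℝ) ^ (1 / 8 : ℝ)⌋₊).image (fun l => g0 + l)) ≤ ⌊(G : ℝ) ^ (1 / 8 : ℝ)⌋₊ := by
      refine card_image_le.trans ?_
      rw [Nat.card_Icc, Nat.add_sub_cancel]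
    have h8 : (⌊(G : ℝ) ^ (1 / 8 : ℝ)⌋₊ : ℝ) ≤ (G : ℝ) ^ (1 / 8 : ℝ) := Nat.floor_le (by positivity)
    have h9 : (#(four M g0 G u) : ℝ) ≤ (#S : ℝ) + (⌊(G : ℝ) ^ (1 / 8 : ℝ)⌋₊ : ℝ) := by exact_mod_cast (by omega)
    linarith
  have hV1 : 1 ≤ (Vz y)⁻¹ := one_le_inv_iff₀.2 ⟨Vz_pos y, Vz_le_one y⟩
  have hsmall : (G : ℝ) ^ (1 / 8 : ℝ) ≤ (Vz y)⁻¹ ^ 4 * G / L ^ 4 := by
    have h4 : (G : ℝ) ^ (1 / 8 : ℝ) ≤ √(G : ℝ) := by
      rw [Real.sqrt_eq_rpow]
      exact Real.rpow_le_rpow_of_exponent_le hG1 (by norm_num)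
    have h5 : L ^ 4 ≤ √(G : ℝ) := by
      rw [← Real.sqrt_sq (by positivity : 0 ≤ L ^ 4)]
      apply Real.sqrt_le_sqrt
      rw [one_mul] at hs3
      calc (L ^ 4) ^ 2 = L ^ 8 := by ring
        _ ≤ √(X : ℝ) := hs3
        _ ≤ G := hG2
    have h6 : (1 : ℝ) ≤ (Vz y)⁻¹ ^ 4 := one_le_pow₀ hV1
    rw [le_div_iff₀ (by positivity)]
    calc (G : ℝ) ^ (1 / 8 : ℝ) * L ^ 4 ≤ √(G : ℝ) * √(G : ℝ) := by gcongr
      _ = 1 * G := by rw [Real.mul_self_sqrt hG0.le, one_mul]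
      _ ≤ (Vz y)⁻¹ ^ 4 * G := by gcongr
  have hr0 : 0 ≤ (n : ℝ) / (n.totient : ℝ) := by positivity
  have gen : ∀ V c g : ℝ, C1 * (V * c) ^ 4 * g / ((L / 2) ^ 2 * (L / 256) ^ 2) = C1 * c ^ 4 * (4 * 256 ^ 2) * (V ^ 4 * g / L ^ 4) := by
    intro V c g
    have := hL0.ne'
    field_simp
    ring
  have hsv2 : (#S : ℝ) ≤ C1 * (2 ^ 12) ^ 4 * (4 * 256 ^ 2) * ((Vz y)⁻¹ ^ 4 * G / L ^ 4) := by
    refine hsv.trans ?_
    calc C1 * ((n : ℝ) / (n.totient : ℝ)) ^ 4 * G / (Real.log G ^ 2 * Real.log w ^ 2)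
        ≤ C1 * ((Vz y)⁻¹ * 2 ^ 12) ^ 4 * G / ((L / 2) ^ 2 * (L / 256) ^ 2) := by gcongr
      _ = _ := gen _ _ _
  have e : (C1 * (2 ^ 12) ^ 4 * (4 * 256 ^ 2) + 1) * (Vz y)⁻¹ ^ 4 * G / L ^ 4 =
      C1 * (2 ^ 12) ^ 4 * (4 * 256 ^ 2) * ((Vz y)⁻¹ ^ 4 * G / L ^ 4) + (Vz y)⁻¹ ^ 4 * G / L ^ 4 := by ring
  rw [e]
  linarith

end Pool.Agent.X28.CS
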