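import Pool.Agent.X28.CS.Four

set_option autoImplicit false

/-! Common shifts: the second moment and the conclusion. -/

namespace Pool.Agent.X28.CS

open Finset
open Pool.Agent.H373R2.T7

/-- the indices for which both numbers are prime -/
def hits (K : Finset ℕ) (a b : ℕ → ℕ) (t : ℕ) : Finset ℕ := K.filter fun k => (a k + t).Prime ∧ (b k + t).Prime

/-- the four numbers -/
def uu (a b : ℕ → ℕ) (z : ℕ × ℕ) : Fin 4 → ℕ := ![a z.1, b z.1, a z.2, b z.2]

/-- a bad difference -/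
def Bd (y : ℕ) (d : ℤ) : Prop := d = 0 ∨ 2 < gy y d.natAbs

lemma Bd_neg (y : ℕ) (d : ℤ) : Bd y (-d) ↔ Bd y d := by
  unfold Bd
  rw [Int.natAbs_neg, neg_eq_zero]

open Classical in
lemma cnt_bd (X y : ℕ) (K : Finset ℕ) (f : ℕ → ℤ) (hf : Set.InjOn f K) (hX : ∀ k ∈ K, |f k| ≤ X) :
    #(K.filter fun k => Bd y (f k)) ≤ 2 * #((Icc 1 X).filter fun d => 2 < gy y d) + 1 := by
  set T := (Icc 1 X).filter fun d => 2 < gy y d with hT
  have h : (K.filter fun k => Bd y (f k)).image f ⊆ (T.image (fun d : ℕ => (d : ℤ)) ∪ T.image (fun d : ℕ => -(d : ℤ))) ∪ {0} := by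
    intro d hd
    obtain ⟨k, hk, rfl⟩ := mem_image.1 hd
    rw [mem_filter] at hk
    have hx := hX k hk.1
    rw [mem_union, mem_union, mem_image, mem_image, mem_singleton]
    rcases hk.2 with h0 | h0
    · exact Or.inr h0
    · by_cases hz : f k = 0
      · exact Or.inr hz
      left
      have hmem : (f k).natAbs ∈ T := by
        rw [hT, mem_filter, mem_Icc]
        refine ⟨⟨Int.natAbs_pos.2 hz, ?_⟩, h0⟩
        zify
        exact hx
      rcases le_total 0 (f k) with h1 | h1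
      · left
        exact ⟨(f k).natAbs, hmem, Int.natAbs_of_nonneg h1⟩
      · right
        refine ⟨(f k).natAbs, hmem, ?_⟩
        rw [Int.ofNat_natAbs_of_nonpos h1]
        ring
  have h1 : #((K.filter fun k => Bd y (f k)).image f) = #(K.filter fun k => Bd y (f k)) := by
    apply card_image_of_injOn
    intro x hx w hw
    exact hf (mem_coe.2 (mem_filter.1 (mem_coe.1 hx)).1) (mem_coe.2 (mem_filter.1 (mem_coe.1 hw)).1)
  rw [← h1]
  refine (card_le_card h).trans ((card_union_le _ _).trans ?_)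
  rw [card_singleton]
  have h2 := card_union_le (T.image (fun d : ℕ => (d : ℤ))) (T.image (fun d : ℕ => -(d : ℤ)))
  have h3 : #(T.image (fun d : ℕ => (d : ℤ))) ≤ #T := card_image_le
  have h4 : #(T.image (fun d : ℕ => -(d : ℤ))) ≤ #T := card_image_le
  omega

open Classical in
/-- pairs with a bad difference -/
noncomputable def BP (y : ℕ) (K : Finset ℕ) (a b : ℕ → ℕ) : Finset (ℕ × ℕ) :=
  (K ×ˢ K).filter fun z => ∃ x ∈ (univ : Finset (Fin 4)).offDiag, Bd y ((uu a b z x.1 : ℤ) - uu a b z x.2)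

open Classical in
lemma card_slice (K : Finset ℕ) (P : ℕ × ℕ → Prop) (B : ℕ) (h : (∀ w ∈ K, #(K.filter fun k => P (k, w)) ≤ B) ∨
    (∀ w ∈ K, #(K.filter fun k => P (w, k)) ≤ B)) : #((K ×ˢ K).filter P) ≤ #K * B := by
  rcases h with h | h
  · have h1 : #((K ×ˢ K).filter P) = ∑ w ∈ K, #(K.filter fun k => P (k, w)) := by
      simp only [card_filter]
      rw [sum_product_right]
    rw [h1]
    refine (sum_le_sum h).trans ?_
    rw [sum_const, smul_eq_mul]
  · have h1 : #((K ×ˢ K).filter P) = ∑ w ∈ K, #(K.filter fun k => P (w, k)) := by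
      simp only [card_filter]
      rw [sum_product]
    rw [h1]
    refine (sum_le_sum h).trans ?_
    rw [sum_const, smul_eq_mul]

open Classical in
lemma BP_card (X y : ℕ) (K : Finset ℕ) (a b : ℕ → ℕ) (ha : Set.InjOn a K) (hb : Set.InjOn b K)
    (hD : Set.InjOn (fun k => (b k : ℤ) - a k) K) (haX : ∀ k ∈ K, a k ≤ X) (hbX : ∀ k ∈ K, b k ≤ X) :
    #(BP y K a b) ≤ 6 * (#K * (2 * #((Icc 1 X).filter fun d => 2 < gy y d) + 1)) := by
  set B := 2 * #((Icc 1 X).filter fun d => 2 < gy y d) + 1 with hB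
  have hsub : BP y K a b ⊆ ((K ×ˢ K).filter fun z => Bd y ((b z.1 : ℤ) - a z.1)) ∪ ((K ×ˢ K).filter fun z => Bd y ((b z.2 : ℤ) - a z.2)) ∪
      ((K ×ˢ K).filter fun z => Bd y ((a z.1 : ℤ) - a z.2)) ∪ ((K ×ˢ K).filter fun z => Bd y ((b z.1 : ℤ) - b z.2)) ∪
      ((K ×ˢ K).filter fun z => Bd y ((a z.1 : ℤ) - b z.2)) ∪ ((K ×ˢ K).filter fun z => Bd y ((b z.1 : ℤ) - a z.2)) := by
    intro z hz
    unfold BP at hz
    rw [mem_filter] at hz
    obtain ⟨hz1, ⟨i, j⟩, hx, hbd⟩ := hz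
    rw [mem_offDiag] at hx
    have hbd' : Bd y ((uu a b z j : ℤ) - uu a b z i) := by
      rw [← Bd_neg]
      rw [show -((uu a b z j : ℤ) - uu a b z i) = (uu a b z i : ℤ) - uu a b z j by ring]
      exact hbd
    simp only [mem_union, mem_filter, hz1, true_and]
    simp only at hbd
    have hne := hx.2.2
    simp only at hne
    fin_cases i <;> fin_cases j <;> simp [uu] at hbd hbd' hne <;> tauto
  have hc : ∀ c ∈ K, Set.InjOn (fun k => (a k : ℤ) - a c) K := by
    intro c _ x hx w hw h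
    exact ha hx hw (by simp only at h; omega)
  have hc2 : ∀ c ∈ K, Set.InjOn (fun k => (b k : ℤ) - b c) K := by
    intro c _ x hx w hw h
    exact hb hx hw (by simp only at h; omega)
  have hc3 : ∀ c ∈ K, Set.InjOn (fun k => (a k : ℤ) - b c) K := by
    intro c _ x hx w hw h
    exact ha hx hw (by simp only at h; omega)
  have hc4 : ∀ c ∈ K, Set.InjOn (fun k => (b k : ℤ) - a c) K := by
    intro c _ x hx w hw h
    exact hb hx hw (by simp only at h; omega)
  have habs : ∀ m n : ℕ, m ≤ X → n ≤ X → |(m : ℤ) - n| ≤ X := by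
    intro m n hm hn
    rw [abs_le]
    omega
  have b1 : #((K ×ˢ K).filter fun z => Bd y ((b z.1 : ℤ) - a z.1)) ≤ #K * B := by
    apply card_slice
    left
    intro w _
    exact cnt_bd X y K (fun k => (b k : ℤ) - a k) hD fun k hk => habs _ _ (hbX k hk) (haX k hk)
  have b2 : #((K ×ˢ K).filter fun z => Bd y ((b z.2 : ℤ) - a z.2)) ≤ #K * B := by
    apply card_slice
    right
    intro w _
    exact cnt_bd X y K (fun k => (b k : ℤ) - a k) hD fun k hk => habs _ _ (hbX k hk) (haX k hk)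
  have b3 : #((K ×ˢ K).filter fun z => Bd y ((a z.1 : ℤ) - a z.2)) ≤ #K * B := by
    apply card_slice
    left
    intro w hw
    exact cnt_bd X y K (fun k => (a k : ℤ) - a w) (hc w hw) fun k hk => habs _ _ (haX k hk) (haX w hw)
  have b4 : #((K ×ˢ K).filter fun z => Bd y ((b z.1 : ℤ) - b z.2)) ≤ #K * B := by
    apply card_slice
    left
    intro w hw
    exact cnt_bd X y K (fun k => (b k : ℤ) - b w) (hc2 w hw) fun k hk => habs _ _ (hbX k hk) (hbX w hw)
  have b5 : #((K ×ˢ K).filter fun z => Bd y ((a z.1 : ℤ) - b z.2)) ≤ #K * B := by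
    apply card_slice
    left
    intro w hw
    exact cnt_bd X y K (fun k => (a k : ℤ) - b w) (hc3 w hw) fun k hk => habs _ _ (haX k hk) (hbX w hw)
  have b6 : #((K ×ˢ K).filter fun z => Bd y ((b z.1 : ℤ) - a z.2)) ≤ #K * B := by
    apply card_slice
    left
    intro w hw
    exact cnt_bd X y K (fun k => (b k : ℤ) - a w) (hc4 w hw) fun k hk => habs _ _ (hbX k hk) (haX w hw)
  refine (card_le_card hsub).trans ?_
  refine (card_union_le _ _).trans ?_
  refine (add_le_add ((card_union_le _ _).trans (add_le_add ((card_union_le _ _).trans (add_le_add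
    ((card_union_le _ _).trans (add_le_add (card_union_le _ _) le_rfl)) le_rfl)) le_rfl)) le_rfl).trans ?_
  omega

lemma sum_hits (K : Finset ℕ) (a b : ℕ → ℕ) (M g0 G : ℕ) :
    ∑ g ∈ Ioc g0 (g0 + G), (#(hits K a b (M * g)) : ℝ) = ∑ k ∈ K, (#(two M g0 G (a k) (b k)) : ℝ) := by
  have e : ∑ g ∈ Ioc g0 (g0 + G), #(hits K a b (M * g)) = ∑ k ∈ K, #(two M g0 G (a k) (b k)) := by
    unfold hits two
    simp only [card_filter]
    exact sum_comm
  exact_mod_cast e

lemma sum_hits2 (K : Finset ℕ) (a b : ℕ → ℕ) (M g0 G : ℕ) :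
    ∑ g ∈ Ioc g0 (g0 + G), (#(hits K a b (M * g)) : ℝ) ^ 2 = ∑ z ∈ K ×ˢ K, (#(four M g0 G (uu a b z)) : ℝ) := by
  have e : ∑ g ∈ Ioc g0 (g0 + G), #(hits K a b (M * g)) ^ 2 = ∑ z ∈ K ×ˢ K, #(four M g0 G (uu a b z)) := by
    have e1 : ∀ g : ℕ, #(hits K a b (M * g)) ^ 2 =
        #((K ×ˢ K).filter fun z => ∀ i, (uu a b z i + M * g).Prime) := by
      intro g
      rw [sq, ← card_product]
      congr 1
      ext z
      simp only [hits, mem_product, mem_filter, uu, Fin.forall_fin_succ, Matrix.cons_val_zero, Matrix.cons_val_succ]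
      simp
      tauto
    rw [sum_congr rfl fun g _ => e1 g]
    unfold four
    simp only [card_filter]
    exact sum_comm
  exact_mod_cast e

open Classical in
theorem common : ∃ c : ℝ, 0 < c ∧ ∀ A C : ℕ, ∃ X0 : ℕ, ∀ X : ℕ, X0 ≤ X → ∀ (y M g0 G : ℕ) (K : Finset ℕ) (a b : ℕ → ℕ),
    Fam X y M g0 G K a b → Set.InjOn a K → Set.InjOn b K → 3 * (A + 6) * Real.log (Real.log X) ≤ y →
    (y : ℝ) ≤ Real.log X → (M : ℝ) ≤ Real.log X ^ C → (X : ℝ) ≤ M * G * Real.log X ^ C → (X : ℝ) ≤ #K * Real.log X ^ A →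
    c * G ≤ #((Ioc g0 (g0 + G)).filter fun g => c * #K * (Vz y)⁻¹ ^ 2 / Real.log X ^ 2 ≤ (#(hits K a b (M * g)) : ℝ)) := by
  obtain ⟨C2, hC2, hfour⟩ := four_le
  refine ⟨1 / (4096 * (C2 + 1)), by positivity, fun A C => ?_⟩
  obtain ⟨X1, h1⟩ := first (A + 1) C
  obtain ⟨X2, h2⟩ := hfour C
  obtain ⟨X3, h3⟩ := dens (A + 5)
  obtain ⟨X4, h4⟩ := ev_L' (Real.exp 100)
  obtain ⟨X5, h5⟩ := ev_log' (A + 4) 12
  refine ⟨max X1 (max X2 (max X3 (max X4 (max X5 2)))), fun X hX y M g0 G K a b hF ha hb hy hyL hML hG hK => ?_⟩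
  have hL := h4 X (by omega)
  have hs5 := h5 X (by omega)
  set L := Real.log X with hLd
  have hX0 : (0 : ℝ) < X := by exact_mod_cast (show 0 < X by omega)
  have hX1 : (1 : ℝ) ≤ X := by exact_mod_cast (show 1 ≤ X by omega)
  have hL0 : 0 < L := lt_of_lt_of_le (Real.exp_pos _) hL
  have hL101 : 101 ≤ L := by have := Real.add_one_le_exp (100 : ℝ); linarith
  have hL1 : 1 ≤ L := by linarith
  have hll : 100 ≤ Real.log L := by
    rw [← Real.log_exp 100]
    exact Real.log_le_log (Real.exp_pos _) hL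
  have hA0 : (0 : ℝ) ≤ A := Nat.cast_nonneg _
  have hy17 : 17 ≤ y := by
    have : (17 : ℝ) ≤ y := by nlinarith
    exact_mod_cast this
  have hd := h3 X (by omega) y (by
    push_cast
    have e : 3 * ((A : ℝ) + 5 + 1) * Real.log L = 3 * (A + 6) * Real.log L := by ring
    rw [e]
    exact hy)
  have hf := h1 X (by omega) y M g0 G K a b hF (by omega) hyL hML hG
  have hLA : 0 < L ^ A := by positivity
  have hKpos : (X : ℝ) / L ^ A ≤ #K := by
    rw [div_le_iff₀ hLA]
    exact hK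
  have hK0 : (0 : ℝ) < #K := lt_of_lt_of_le (by positivity) hKpos
  have hV1 : 1 ≤ (Vz y)⁻¹ := one_le_inv_iff₀.2 ⟨Vz_pos y, Vz_le_one y⟩
  set V := (Vz y)⁻¹ with hV
  have hG0 : (0 : ℝ) ≤ G := Nat.cast_nonneg _
  set B : ℝ := #K * V ^ 2 / L ^ 2 with hB
  have hB0 : 0 < B := by positivity
  -- first moment
  have m1 : G * B / 32 ≤ ∑ g ∈ Ioc g0 (g0 + G), (#(hits K a b (M * g)) : ℝ) := by
    rw [sum_hits]
    set bad := K.filter fun k => (#(two M g0 G (a k) (b k)) : ℝ) < V ^ 2 * G / (16 * L ^ 2) with hbad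
    have hbadc : (bad.card : ℝ) ≤ #K / 2 := by
      refine hf.trans ?_
      have e : (X : ℝ) / L ^ (A + 1) = X / L ^ A / L := by rw [pow_succ]; field_simp
      rw [e, div_le_div_iff₀ hL0 (by norm_num)]
      have : 0 ≤ (X : ℝ) / L ^ A := by positivity
      nlinarith
    have hsplit : (#(K \ bad) : ℝ) = #K - bad.card := by
      rw [card_sdiff_of_subset (filter_subset _ _), Nat.cast_sub (card_le_card (filter_subset _ _))]
    calc G * B / 32 = #K / 2 * (V ^ 2 * G / (16 * L ^ 2)) := by rw [hB]; field_simp; ring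
      _ ≤ #(K \ bad) * (V ^ 2 * G / (16 * L ^ 2)) := by
          apply mul_le_mul_of_nonneg_right _ (by positivity)
          rw [hsplit]
          linarith
      _ = ∑ k ∈ K \ bad, V ^ 2 * G / (16 * L ^ 2) := by rw [sum_const, nsmul_eq_mul]
      _ ≤ ∑ k ∈ K \ bad, (#(two M g0 G (a k) (b k)) : ℝ) := by
          apply sum_le_sum
          intro k hk
          rw [mem_sdiff, hbad, mem_filter, not_and, not_lt] at hk
          exact hk.2 hk.1
      _ ≤ _ := sum_le_sum_of_subset_of_nonneg sdiff_subset fun _ _ _ => Nat.cast_nonneg _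
  -- second moment
  have m2 : ∑ g ∈ Ioc g0 (g0 + G), (#(hits K a b (M * g)) : ℝ) ^ 2 ≤ (C2 + 1) * B ^ 2 * G := by
    rw [sum_hits2, ← sum_filter_add_sum_filter_not (K ×ˢ K) (fun z => ∃ x ∈ (univ : Finset (Fin 4)).offDiag, Bd y ((uu a b z x.1 : ℤ) - uu a b z x.2))]
    have p1 : ∑ z ∈ (K ×ˢ K).filter (fun z => ∃ x ∈ (univ : Finset (Fin 4)).offDiag, Bd y ((uu a b z x.1 : ℤ) - uu a b z x.2)),
        (#(four M g0 G (uu a b z)) : ℝ) ≤ #(BP y K a b) * G := by
      refine (sum_le_card_nsmul _ _ (G : ℝ) ?_).trans (le_of_eq ?_)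
      · intro z _
        have : #(four M g0 G (uu a b z)) ≤ G := by
          refine (card_filter_le _ _).trans ?_
          rw [Nat.card_Ioc]
          omega
        exact_mod_cast this
      · rw [nsmul_eq_mul]
        rfl
    have p2 : ∑ z ∈ (K ×ˢ K).filter (fun z => ¬ ∃ x ∈ (univ : Finset (Fin 4)).offDiag, Bd y ((uu a b z x.1 : ℤ) - uu a b z x.2)),
        (#(four M g0 G (uu a b z)) : ℝ) ≤ (#K : ℝ) ^ 2 * (C2 * V ^ 4 * G / L ^ 4) := by
      have hb' : ∀ z ∈ (K ×ˢ K).filter (fun z => ¬ ∃ x ∈ (univ : Finset (Fin 4)).offDiag, Bd y ((uu a b z x.1 : ℤ) - uu a b z x.2)),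
          (#(four M g0 G (uu a b z)) : ℝ) ≤ C2 * V ^ 4 * G / L ^ 4 := by
        intro z hz
        have hz' := (mem_filter.1 hz).2
        push Not at hz'
        apply h2 X (by omega) y M g0 G (uu a b z) hy17 hF.hM hF.hMp hML hG
        · intro x hx h0
          exact hz' x hx (Or.inl (Int.natAbs_eq_zero.1 h0))
        · intro x hx
          by_contra hlt
          exact hz' x hx (Or.inr (not_le.1 hlt))
      refine (sum_le_card_nsmul _ _ _ hb').trans ?_
      rw [nsmul_eq_mul]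
      apply mul_le_mul_of_nonneg_right _ (by positivity)
      have : #((K ×ˢ K).filter (fun z => ¬ ∃ x ∈ (univ : Finset (Fin 4)).offDiag, Bd y ((uu a b z x.1 : ℤ) - uu a b z x.2))) ≤ #K * #K := by
        refine (card_filter_le _ _).trans ?_
        rw [card_product]
      calc ((#((K ×ˢ K).filter (fun z => ¬ ∃ x ∈ (univ : Finset (Fin 4)).offDiag, Bd y ((uu a b z x.1 : ℤ) - uu a b z x.2))) : ℕ) : ℝ)
          ≤ ((#K * #K : ℕ) : ℝ) := by exact_mod_cast this
        _ = (#K : ℝ) ^ 2 := by push_cast; ring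
    have p3 : (#(BP y K a b) : ℝ) ≤ (#K : ℝ) ^ 2 * (V ^ 4 / L ^ 4) := by
      have q := BP_card X y K a b ha hb hF.inj (fun k hk => by have := hF.haX k hk; omega) (fun k hk => by have := hF.hbX k hk; omega)
      have q' : (#(BP y K a b) : ℝ) ≤ 6 * (#K * (2 * (X / L ^ (A + 5)) + 1)) := by
        calc (#(BP y K a b) : ℝ) ≤ ((6 * (#K * (2 * #((Icc 1 X).filter fun d => 2 < gy y d) + 1)) : ℕ) : ℝ) := by exact_mod_cast q
          _ = 6 * (#K * (2 * (#((Icc 1 X).filter fun d => 2 < gy y d) : ℝ) + 1)) := by push_cast; ring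
          _ ≤ _ := by gcongr
      refine q'.trans ?_
      have r1 : 12 * (X / L ^ (A + 5)) + 6 ≤ #K * (1 / L ^ 4) := by
        have e1 : (X : ℝ) / L ^ (A + 5) = X / L ^ (A + 4) / L := by rw [pow_succ L (A + 4)]; field_simp
        have e2 : (X : ℝ) / L ^ (A + 4) ≤ #K * (1 / L ^ 4) := by
          have : (X : ℝ) / L ^ (A + 4) = X / L ^ A * (1 / L ^ 4) := by rw [pow_add]; field_simp
          rw [this]
          gcongr
        have e3 : 12 ≤ (X : ℝ) / L ^ (A + 4) := by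
          rw [le_div_iff₀ (by positivity)]
          refine hs5.trans ?_
          rw [Real.sqrt_le_left (by positivity)]
          nlinarith
        have e4 : 12 * ((X : ℝ) / L ^ (A + 4) / L) ≤ (X : ℝ) / L ^ (A + 4) / 2 := by
          rw [← mul_div_assoc, div_le_div_iff₀ hL0 (by norm_num)]
          have : 0 ≤ (X : ℝ) / L ^ (A + 4) := by positivity
          nlinarith
        rw [e1]
        linarith
      have r2 : (1 : ℝ) ≤ V ^ 4 := one_le_pow₀ hV1
      calc 6 * (#K * (2 * (X / L ^ (A + 5)) + 1)) = #K * (12 * (X / L ^ (A + 5)) + 6) := by ring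
        _ ≤ #K * (#K * (1 / L ^ 4)) := by gcongr
        _ ≤ #K * (#K * (V ^ 4 / L ^ 4)) := by gcongr
        _ = _ := by ring
    have e : B ^ 2 * G = (#K : ℝ) ^ 2 * (V ^ 4 / L ^ 4) * G := by rw [hB]; field_simp
    calc _ ≤ #(BP y K a b) * (G : ℝ) + (#K : ℝ) ^ 2 * (C2 * V ^ 4 * G / L ^ 4) := add_le_add p1 p2
      _ ≤ (#K : ℝ) ^ 2 * (V ^ 4 / L ^ 4) * G + (#K : ℝ) ^ 2 * (C2 * V ^ 4 * G / L ^ 4) := by gcongr
      _ = (C2 + 1) * (B ^ 2 * G) := by rw [e]; ring
      _ = _ := by ring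
  -- conclusion
  set c : ℝ := 1 / (4096 * (C2 + 1)) with hc
  have hcB : c * #K * V ^ 2 / L ^ 2 ≤ B / 64 := by
    have h6 : c ≤ 1 / 64 := by
      rw [hc]
      apply one_div_le_one_div_of_le (by norm_num)
      nlinarith
    calc c * #K * V ^ 2 / L ^ 2 = c * B := by rw [hB]; ring
      _ ≤ 1 / 64 * B := by gcongr
      _ = B / 64 := by ring
  set N := (Ioc g0 (g0 + G)).filter fun g => B / 64 ≤ (#(hits K a b (M * g)) : ℝ) with hN
  have hNsub : N ⊆ (Ioc g0 (g0 + G)).filter fun g => c * #K * V ^ 2 / L ^ 2 ≤ (#(hits K a b (M * g)) : ℝ) := by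
    intro g hg
    rw [hN, mem_filter] at hg
    rw [mem_filter]
    exact ⟨hg.1, hcB.trans hg.2⟩
  refine le_trans ?_ (Nat.cast_le.2 (card_le_card hNsub))
  have s1 : ∑ g ∈ Ioc g0 (g0 + G), (#(hits K a b (M * g)) : ℝ) ≤ G * (B / 64) + ∑ g ∈ N, (#(hits K a b (M * g)) : ℝ) := by
    rw [← sum_filter_add_sum_filter_not (Ioc g0 (g0 + G)) (fun g => B / 64 ≤ (#(hits K a b (M * g)) : ℝ)), add_comm]
    apply add_le_add _ le_rfl
    refine (sum_le_card_nsmul _ _ (B / 64) ?_).trans ?_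
    · intro g hg
      exact (not_le.1 (mem_filter.1 hg).2).le
    · rw [nsmul_eq_mul]
      apply mul_le_mul_of_nonneg_right _ (by positivity)
      have : #((Ioc g0 (g0 + G)).filter (fun g => ¬ B / 64 ≤ (#(hits K a b (M * g)) : ℝ))) ≤ G := by
        refine (card_filter_le _ _).trans ?_
        rw [Nat.card_Ioc]
        omega
      exact_mod_cast this
  have s2 : (∑ g ∈ N, (#(hits K a b (M * g)) : ℝ)) ^ 2 ≤ #N * ((C2 + 1) * B ^ 2 * G) := by
    refine (sq_sum_le_card_mul_sum_sq).trans ?_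
    apply mul_le_mul_of_nonneg_left _ (Nat.cast_nonneg _)
    refine le_trans ?_ m2
    exact sum_le_sum_of_subset_of_nonneg (filter_subset _ _) fun _ _ _ => by positivity
  have s3 : G * B / 64 ≤ ∑ g ∈ N, (#(hits K a b (M * g)) : ℝ) := by linarith
  have s4 : (G * B / 64) ^ 2 ≤ #N * ((C2 + 1) * B ^ 2 * G) :=
    (pow_le_pow_left₀ (by positivity) s3 2).trans s2
  rcases hG0.lt_or_eq with hGp | hGz
  · have s5 : G ^ 2 * B ^ 2 ≤ 4096 * (C2 + 1) * #N * (B ^ 2 * G) := by nlinarith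
    have s6 : (G : ℝ) ≤ 4096 * (C2 + 1) * #N := by
      have hpos : 0 < B ^ 2 * (G : ℝ) := by positivity
      have : (G : ℝ) * (B ^ 2 * G) ≤ 4096 * (C2 + 1) * #N * (B ^ 2 * G) := by
        refine le_trans (le_of_eq ?_) s5
        ring
      exact le_of_mul_le_mul_right this hpos
    rw [hc, one_div, inv_mul_le_iff₀ (by positivity)]
    exact s6
  · rw [← hGz, mul_zero]
    exact Nat.cast_nonneg _

end Pool.Agent.X28.CS
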