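import Pool.Agent.H373R2.T7.LamZ2

set_option autoImplicit false

/-! Pairs free of prime factors in `(y, z]` in a progression and an interval. -/

namespace Pool.Agent.X28.CS

open Finset
open Pool.Agent.H373R2.T7

/-- primes in `(y, z]` -/
def pyz (y z : ℕ) : Finset ℕ := (pz z).filter (fun p => y < p)

lemma mem_pyz {y z p : ℕ} : p ∈ pyz y z ↔ y < p ∧ p ≤ z ∧ p.Prime := by
  unfold pyz
  rw [mem_filter, mem_pz]
  tauto

/-- number of bad classes -/
def nu (D : ℤ) (p : ℕ) : ℕ := ((range p).filter (fun r => p ∣ r ∨ (p : ℤ) ∣ (r : ℤ) - D)).card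

lemma nu_le (D : ℤ) (p : ℕ) (hp : p.Prime) : nu D p ≤ 2 := by
  classical
  have hp0 : (p : ℤ) ≠ 0 := by exact_mod_cast hp.ne_zero
  have hpp : (0 : ℤ) < p := by exact_mod_cast hp.pos
  have h : (range p).filter (fun r => p ∣ r ∨ (p : ℤ) ∣ (r : ℤ) - D) ⊆ {0, (D % p).toNat} := by
    intro r hr
    rw [mem_filter, mem_range] at hr
    rw [mem_insert, mem_singleton]
    rcases hr.2 with h | h
    · exact Or.inl (Nat.eq_zero_of_dvd_of_lt h hr.1)
    · right
      have h1 : (r : ℤ) % p = D % p := (Int.modEq_iff_dvd.2 h).symm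
      rw [← h1, Int.emod_eq_of_lt (by positivity) (by exact_mod_cast hr.1)]
      simp
  unfold nu
  exact (card_le_card h).trans card_le_two

lemma prod_pyz_ge (y z : ℕ) (hy : 2 ≤ y) : 1 / 2 ≤ ∏ p ∈ pyz y z, (1 - 1 / ((p : ℝ) - 1) ^ 2) := by
  have key : ∀ w : ℕ, 2 ≤ w → ∏ m ∈ Ioc 2 w, (1 - 1 / ((m : ℝ) - 1) ^ 2) = (w : ℝ) / (2 * (w - 1)) := by
    intro w hw
    induction w, hw using Nat.le_induction with
    | base => norm_num
    | succ w hw ih =>
      rw [prod_Ioc_succ_top (by omega), ih]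
      have h1 : (2 : ℝ) ≤ w := by exact_mod_cast hw
      have h2 : (w : ℝ) - 1 ≠ 0 := by linarith
      have h3 : (w : ℝ) ≠ 0 := by linarith
      push_cast
      rw [show (w : ℝ) + 1 - 1 = w by ring]
      field_simp
      ring
  have hfac : ∀ m : ℕ, 2 < m → 0 ≤ 1 - 1 / ((m : ℝ) - 1) ^ 2 ∧ 1 - 1 / ((m : ℝ) - 1) ^ 2 ≤ 1 := by
    intro m hm
    have h1 : (3 : ℝ) ≤ m := by exact_mod_cast hm
    have h2 : 1 ≤ ((m : ℝ) - 1) ^ 2 := by nlinarith
    constructor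
    · rw [sub_nonneg, div_le_one (by positivity)]; exact h2
    · have : 0 ≤ 1 / ((m : ℝ) - 1) ^ 2 := by positivity
      linarith
  rcases lt_or_ge z 2 with hz | hz
  · have : pyz y z = ∅ := by
      rw [eq_empty_iff_forall_notMem]
      intro p hp
      rw [mem_pyz] at hp
      omega
    rw [this]
    norm_num
  have hsub : pyz y z ⊆ Ioc 2 z := by
    intro p hp
    rw [mem_pyz] at hp
    rw [mem_Ioc]
    omega
  have h1 : ∏ m ∈ Ioc 2 z, (1 - 1 / ((m : ℝ) - 1) ^ 2) ≤ ∏ p ∈ pyz y z, (1 - 1 / ((p : ℝ) - 1) ^ 2) := by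
    rw [← prod_sdiff hsub]
    apply mul_le_of_le_one_left
    · apply prod_nonneg
      intro p hp
      exact (hfac p (mem_Ioc.1 (hsub hp)).1).1
    · apply prod_le_one
      · intro p hp
        exact (hfac p (mem_Ioc.1 (mem_sdiff.1 hp).1).1).1
      · intro p hp
        exact (hfac p (mem_Ioc.1 (mem_sdiff.1 hp).1).1).2
  refine le_trans ?_ h1
  rw [key z hz]
  have hz2 : (2 : ℝ) ≤ z := by exact_mod_cast hz
  rw [div_le_div_iff₀ (by norm_num) (by linarith)]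
  linarith

/-- the product over `(y, z]` against the two products of Mertens type -/
lemma prod_ratio (y z : ℕ) (hy : 2 ≤ y) (hyz : y ≤ z) (D : ℤ) :
    (Vz y)⁻¹ ^ 2 / 2 ≤ (Vz z)⁻¹ ^ 2 * ∏ p ∈ pyz y z, (1 - (nu D p : ℝ) / p) := by
  have h0 : Vz z = Vz y * ∏ p ∈ pyz y z, (1 - 1 / (p : ℝ)) := by
    unfold Vz pyz
    have e : pz y = (pz z).filter (fun p => ¬ y < p) := by
      ext p
      rw [mem_filter, mem_pz, mem_pz]
      constructor
      · rintro ⟨h1, h2⟩; exact ⟨⟨by omega, h2⟩, by omega⟩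
      · rintro ⟨⟨h1, h2⟩, h3⟩; exact ⟨by omega, h2⟩
    rw [e, mul_comm, prod_filter_mul_prod_filter_not]
  have hP : ∀ p ∈ pyz y z, (0 : ℝ) < 1 - 1 / (p : ℝ) := by
    intro p hp
    rw [mem_pyz] at hp
    have : (2 : ℝ) ≤ p := by exact_mod_cast hp.2.2.two_le
    rw [sub_pos, div_lt_one (by linarith)]; linarith
  have hPp : 0 < ∏ p ∈ pyz y z, (1 - 1 / (p : ℝ)) := prod_pos hP
  have h1 : ∏ p ∈ pyz y z, (1 - 1 / ((p : ℝ) - 1) ^ 2) * (1 - 1 / (p : ℝ)) ^ 2 ≤ ∏ p ∈ pyz y z, (1 - (nu D p : ℝ) / p) := by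
    apply prod_le_prod
    · intro p hp
      rw [mem_pyz] at hp
      have h3 : (3 : ℝ) ≤ p := by exact_mod_cast (show 3 ≤ p by omega)
      apply mul_nonneg _ (by positivity)
      rw [sub_nonneg, div_le_one (by nlinarith)]
      nlinarith
    · intro p hp
      rw [mem_pyz] at hp
      have h3 : (3 : ℝ) ≤ p := by exact_mod_cast (show 3 ≤ p by omega)
      have h4 : (nu D p : ℝ) ≤ 2 := by exact_mod_cast nu_le D p hp.2.2
      have h5 : (nu D p : ℝ) / p ≤ 2 / p := by gcongr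
      have h6 : (1 - 1 / ((p : ℝ) - 1) ^ 2) * (1 - 1 / (p : ℝ)) ^ 2 = 1 - 2 / p := by
        have : (p : ℝ) - 1 ≠ 0 := by linarith
        field_simp
        ring
      rw [h6]
      linarith
  rw [prod_mul_distrib, prod_pow] at h1
  have h2 := prod_pyz_ge y z hy
  have hVy := Vz_pos y
  rw [h0, mul_inv]
  set P := ∏ p ∈ pyz y z, (1 - 1 / (p : ℝ)) with hPdef
  calc (Vz y)⁻¹ ^ 2 / 2 = ((Vz y)⁻¹ * P⁻¹) ^ 2 * (1 / 2 * P ^ 2) := by field_simp
    _ ≤ ((Vz y)⁻¹ * P⁻¹) ^ 2 * ∏ p ∈ pyz y z, (1 - (nu D p : ℝ) / p) := by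
        apply mul_le_mul_of_nonneg_left _ (by positivity)
        refine le_trans ?_ h1
        apply mul_le_mul_of_nonneg_right h2 (by positivity)

/-- the pairs free of prime factors in `(y, z]` -/
lemma sieve_pairs (y z M c A B r : ℕ) (hM : 1 ≤ M) (hMy : ∀ p, p.Prime → p ∣ M → p ≤ y) (hAB : A ≤ B) (D : ℤ) :
    ((B : ℝ) - A) / M * ∏ p ∈ pyz y z, (1 - (nu D p : ℝ) / p) -
      (2 * 2 ^ r * ((z : ℝ) + 1) ^ r + 2 * B * Real.exp (6 * (1 + Real.log z) - r)) ≤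
    (((((Ioc A B).filter (fun n => n ≡ c [MOD M])).filter (fun n : ℕ => ∀ p ∈ pyz y z, ¬ (p ∣ n ∨ (p : ℤ) ∣ (n : ℤ) - D))).card : ℕ) : ℝ) := by
  classical
  have hM0 : (0 : ℝ) < M := by exact_mod_cast hM
  set T := pyz y z with hT
  have hTp : ∀ p ∈ T, p.Prime := fun p hp => (mem_pyz.1 hp).2.2
  have hnu2 : ∀ p ∈ T, (nu D p : ℝ) ≤ 2 := fun p hp => by exact_mod_cast nu_le D p (hTp p hp)
  have hper : ∀ p n : ℕ, (p ∣ n ∨ (p : ℤ) ∣ (n : ℤ) - D) ↔ (p ∣ n % p ∨ (p : ℤ) ∣ ((n % p : ℕ) : ℤ) - D) := by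
    intro p n
    rw [Nat.dvd_mod_iff (dvd_refl p)]
    have h1 : (n : ℤ) - D = (((n % p : ℕ) : ℤ) - D) + p * ((n / p : ℕ) : ℤ) := by
      have := Nat.mod_add_div n p
      have h2 : (n : ℤ) = ((n % p : ℕ) : ℤ) + p * ((n / p : ℕ) : ℤ) := by exact_mod_cast this.symm
      linarith
    have h2 : (p : ℤ) ∣ (n : ℤ) - D ↔ (p : ℤ) ∣ ((n % p : ℕ) : ℤ) - D := by
      rw [h1]
      exact (Int.dvd_add_left (dvd_mul_right _ _))
    rw [h2]
  have hsplit : ∀ (P : ℕ → Prop) [DecidablePred P], (((Ioc A B).filter P).card : ℝ) =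
      (((Icc 1 B).filter P).card : ℝ) - (((Icc 1 A).filter P).card : ℝ) := by
    intro P _
    have e : (Icc 1 B).filter P = (Icc 1 A).filter P ∪ (Ioc A B).filter P := by
      ext n
      rw [mem_union, mem_filter, mem_filter, mem_filter, mem_Icc, mem_Icc, mem_Ioc]
      constructor
      · rintro ⟨⟨h1, h2⟩, h3⟩
        rcases Nat.lt_or_ge A n with h | h
        · exact Or.inr ⟨⟨h, h2⟩, h3⟩
        · exact Or.inl ⟨⟨h1, h⟩, h3⟩
      · rintro (⟨⟨h1, h2⟩, h3⟩ | ⟨⟨h1, h2⟩, h3⟩)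
        · exact ⟨⟨h1, by omega⟩, h3⟩
        · exact ⟨⟨by omega, h2⟩, h3⟩
    have hd : Disjoint ((Icc 1 A).filter P) ((Ioc A B).filter P) := by
      rw [disjoint_left]
      intro n h1 h2
      rw [mem_filter, mem_Icc] at h1
      rw [mem_filter, mem_Ioc] at h2
      omega
    rw [e, card_union_of_disjoint hd]
    push_cast
    ring
  have key := sieve_gen' ((Ioc A B).filter (fun n => n ≡ c [MOD M])) (fun _ => (1 : ℝ)) (fun _ _ => zero_le_one)
    (fun p n => p ∣ n ∨ (p : ℤ) ∣ (n : ℤ) - D) T (fun p => (nu D p : ℝ) / p) (fun p hp => by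
      have hp2 : (2 : ℝ) ≤ p := by exact_mod_cast (hTp p hp).two_le
      constructor
      · positivity
      · rw [div_le_one (by linarith)]; linarith [hnu2 p hp]) (((B : ℝ) - A) / M)
    (div_nonneg (by have : (A : ℝ) ≤ B := by exact_mod_cast hAB
                    linarith) hM0.le) (fun _ => 2 * 2 ^ r) r (by
      intro S hS hSr
      have hSp : ∀ p ∈ S, p.Prime := fun p hp => hTp p (hS hp)
      have hSM : ∀ p ∈ S, ¬ p ∣ M := fun p hp hd => by
        have h1 := hMy p (hSp p hp) hd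
        have h2 := (mem_pyz.1 (hS hp)).1
        omega
      have hB := count_sys (fun p a => p ∣ a ∨ (p : ℤ) ∣ (a : ℤ) - D) B S hSp M hM hSM c
      have hA := count_sys (fun p a => p ∣ a ∨ (p : ℤ) ∣ (a : ℤ) - D) A S hSp M hM hSM c
      have h3 : ∏ p ∈ S, (((range p).filter (fun a => p ∣ a ∨ (p : ℤ) ∣ (a : ℤ) - D)).card : ℝ) ≤ 2 ^ r := by
        calc ∏ p ∈ S, (((range p).filter (fun a => p ∣ a ∨ (p : ℤ) ∣ (a : ℤ) - D)).card : ℝ) ≤ ∏ _p ∈ S, (2 : ℝ) := by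
              apply prod_le_prod (fun _ _ => Nat.cast_nonneg _)
              intro p hp
              have := hnu2 p (hS hp)
              unfold nu at this
              exact_mod_cast this
          _ = 2 ^ S.card := by rw [prod_const]
          _ ≤ 2 ^ r := pow_le_pow_right₀ (by norm_num) hSr
      have h4 : ∑ i ∈ ((Ioc A B).filter (fun n => n ≡ c [MOD M])) with ∀ p ∈ S, (p ∣ i ∨ (p : ℤ) ∣ (i : ℤ) - D), (1 : ℝ) =
          (((Ioc A B).filter (fun n => n ≡ c [MOD M] ∧ ∀ p ∈ S, (p ∣ n % p ∨ (p : ℤ) ∣ ((n % p : ℕ) : ℤ) - D))).card : ℝ) := by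
        rw [sum_const, nsmul_eq_mul, mul_one, filter_filter]
        congr 2
        apply filter_congr
        intro n _
        constructor
        · rintro ⟨h1, h2⟩; exact ⟨h1, fun p hp => (hper p n).1 (h2 p hp)⟩
        · rintro ⟨h1, h2⟩; exact ⟨h1, fun p hp => (hper p n).2 (h2 p hp)⟩
      rw [h4, hsplit]
      have e1 : ((B : ℝ) - A) / M * ∏ p ∈ S, ((nu D p : ℝ) / p) =
          (B : ℝ) / M * ∏ p ∈ S, ((((range p).filter (fun a => p ∣ a ∨ (p : ℤ) ∣ (a : ℤ) - D)).card : ℝ) / p) -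
          (A : ℝ) / M * ∏ p ∈ S, ((((range p).filter (fun a => p ∣ a ∨ (p : ℤ) ∣ (a : ℤ) - D)).card : ℝ) / p) := by
        unfold nu
        ring
      rw [e1]
      have hB' := abs_le.1 hB
      have hA' := abs_le.1 hA
      rw [abs_le]
      constructor <;> linarith [hB'.1, hB'.2, hA'.1, hA'.2])
  have e2 : ∑ i ∈ ((Ioc A B).filter (fun n => n ≡ c [MOD M])) with ∀ p ∈ T, ¬ (p ∣ i ∨ (p : ℤ) ∣ (i : ℤ) - D), (1 : ℝ) =
      ((((Ioc A B).filter (fun n => n ≡ c [MOD M])).filter (fun n : ℕ => ∀ p ∈ T, ¬ (p ∣ n ∨ (p : ℤ) ∣ (n : ℤ) - D))).card : ℝ) := by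
    rw [sum_const, nsmul_eq_mul, mul_one]
  rw [e2] at key
  have h4 : ∑ j ∈ range (r + 1), ∑ S ∈ T.powersetCard j, (2 * 2 ^ r : ℝ) ≤ 2 * 2 ^ r * ((z : ℝ) + 1) ^ r := by
    have h5 := card_small T r
    have h6 : ∑ j ∈ range (r + 1), ∑ S ∈ T.powersetCard j, (2 * 2 ^ r : ℝ) = 2 * 2 ^ r * ((∑ j ∈ range (r + 1), (T.powersetCard j).card : ℕ) : ℝ) := by
      push_cast
      rw [mul_sum]
      apply sum_congr rfl
      intro j _
      rw [sum_const, nsmul_eq_mul]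
      ring
    rw [h6]
    apply mul_le_mul_of_nonneg_left _ (by positivity)
    refine h5.trans ?_
    have h7a : T.card ≤ z := (card_le_card (show T ⊆ pz z from filter_subset _ _)).trans (card_pz_le z)
    have h7 : (T.card : ℝ) ≤ z := Nat.cast_le.2 h7a
    have h8 : (0 : ℝ) ≤ T.card := Nat.cast_nonneg _
    exact pow_le_pow_left₀ (by linarith) (by linarith) r
  have h5 : es (fun p => (nu D p : ℝ) / p) T r ≤ Real.exp (6 * (1 + Real.log z) - r) := by
    refine (es_le (fun p _ => by positivity) r).trans ?_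
    apply Real.exp_le_exp.2
    have h6 : ∑ p ∈ T, (nu D p : ℝ) / p ≤ 2 * ∑ p ∈ pz z, 1 / (p : ℝ) := by
      calc ∑ p ∈ T, (nu D p : ℝ) / p ≤ ∑ p ∈ T, 2 * (1 / (p : ℝ)) := by
            apply sum_le_sum
            intro p hp
            rw [← mul_div_assoc, mul_one]
            have := hnu2 p hp
            gcongr
        _ = 2 * ∑ p ∈ T, 1 / (p : ℝ) := by rw [mul_sum]
        _ ≤ 2 * ∑ p ∈ pz z, 1 / (p : ℝ) := by
            apply mul_le_mul_of_nonneg_left _ (by norm_num)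
            exact sum_le_sum_of_subset_of_nonneg (filter_subset _ _) (fun _ _ _ => by positivity)
    have := sum_pz_le z
    linarith
  have h6 : ((B : ℝ) - A) / M ≤ B := by
    rw [div_le_iff₀ hM0]
    have h7 : (1 : ℝ) ≤ M := by exact_mod_cast hM
    have h8 : (0 : ℝ) ≤ A := Nat.cast_nonneg _
    have h9 : (0 : ℝ) ≤ B := Nat.cast_nonneg _
    nlinarith
  have h7 : 2 * (((B : ℝ) - A) / M) * es (fun p => (nu D p : ℝ) / p) T r ≤ 2 * B * Real.exp (6 * (1 + Real.log z) - r) := by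
    have h8 : 0 ≤ es (fun p => (nu D p : ℝ) / p) T r := es_nonneg (fun p _ => by positivity) r
    gcongr
  have := (abs_le.1 key).1
  linarith

end Pool.Agent.X28.CS
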