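import Pool.Agent.X28.CS.Exc2
import Pool.Agent.X28.CS.Sv

set_option autoImplicit false

/-! One pair of starting points. -/

namespace Pool.Agent.X28.CS

open Finset
open Pool.Agent.H373R2.T7
open Pool.Agent.H352R3.FK
open ArithmeticFunction (vonMangoldt)

def I1 (M H g0 G c i : ℕ) : Finset ℕ := (Ioc (i * H + H + M * g0) (i * H + M * (g0 + G))).filter (fun n => n ≡ c [MOD M])
def I2 (M H g0 G c j : ℕ) : Finset ℕ := (Ioc (j * H + 2 * H + M * g0) (j * H + M * (g0 + G) - H)).filter (fun n => n ≡ c [MOD M])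

lemma div_bd (a H : ℕ) (hH : 1 ≤ H) : a / H * H ≤ a ∧ a < a / H * H + H := by
  have h1 := Nat.div_add_mod a H
  have h2 := Nat.mod_lt a (show 0 < H by omega)
  constructor
  · exact Nat.div_mul_le_self a H
  · rw [mul_comm] at h1
    omega

lemma I1_sum (M H g0 G a b : ℕ) (hM : 1 ≤ M) (hH : 1 ≤ H) (F : ℕ → ℕ → ℝ) (hF : ∀ m n, 0 ≤ F m n) :
    ∑ s ∈ I1 M H g0 G (a % M) (a / H), F s ((s : ℤ) + ((b : ℤ) - a)).toNat ≤
      ∑ g ∈ Ioc g0 (g0 + G), F (a + M * g) (b + M * g) := by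
  obtain ⟨d1, d2⟩ := div_bd a H hH
  have hinj : Set.InjOn (fun g => a + M * g) (Ioc g0 (g0 + G) : Finset ℕ) := by
    intro x _ z _ h
    simp only at h
    exact Nat.eq_of_mul_eq_mul_left (by omega : 0 < M) (by omega)
  have hsub : I1 M H g0 G (a % M) (a / H) ⊆ (Ioc g0 (g0 + G)).image (fun g => a + M * g) := by
    intro s hs
    unfold I1 at hs
    rw [mem_filter, mem_Ioc] at hs
    obtain ⟨⟨h1, h2⟩, h3⟩ := hs
    have h3' : s ≡ a [MOD M] := h3.trans (Nat.mod_modEq a M)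
    have has : a ≤ s := by omega
    obtain ⟨g, hg⟩ := (Nat.modEq_iff_dvd' has).1 h3'.symm
    rw [mem_image]
    refine ⟨g, ?_, by omega⟩
    rw [mem_Ioc]
    constructor
    · by_contra hlt
      have : M * g ≤ M * g0 := Nat.mul_le_mul_left _ (by omega)
      omega
    · by_contra hlt
      have : M * (g0 + G + 1) ≤ M * g := Nat.mul_le_mul_left _ (by omega)
      have e : M * (g0 + G + 1) = M * (g0 + G) + M := by ring
      omega
  calc ∑ s ∈ I1 M H g0 G (a % M) (a / H), F s ((s : ℤ) + ((b : ℤ) - a)).toNat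
      ≤ ∑ s ∈ (Ioc g0 (g0 + G)).image (fun g => a + M * g), F s ((s : ℤ) + ((b : ℤ) - a)).toNat :=
        sum_le_sum_of_subset_of_nonneg hsub (fun _ _ _ => hF _ _)
    _ = ∑ g ∈ Ioc g0 (g0 + G), F (a + M * g) (((a + M * g : ℕ) : ℤ) + ((b : ℤ) - a)).toNat := sum_image hinj
    _ = _ := by
        apply sum_congr rfl
        intro g _
        congr 1
        have : ((a + M * g : ℕ) : ℤ) + ((b : ℤ) - a) = ((b + M * g : ℕ) : ℤ) := by push_cast; ring
        rw [this, Int.toNat_natCast]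

lemma I2_sum (M H g0 G a b : ℕ) (hM : 1 ≤ M) (hH : 1 ≤ H) (F : ℕ → ℕ → ℝ) (hF : ∀ m n, 0 ≤ F m n) :
    ∑ t ∈ I2 M H g0 G (b % M) (b / H), F ((t : ℤ) + ((a : ℤ) - b)).toNat t ≤
      ∑ s ∈ I1 M H g0 G (a % M) (a / H), F s ((s : ℤ) + ((b : ℤ) - a)).toNat := by
  obtain ⟨d1, d2⟩ := div_bd a H hH
  obtain ⟨d3, d4⟩ := div_bd b H hH
  have hpos : ∀ s ∈ I1 M H g0 G (a % M) (a / H), a ≤ s := by
    intro s hs
    unfold I1 at hs
    rw [mem_filter, mem_Ioc] at hs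
    omega
  have hinj : Set.InjOn (fun s : ℕ => ((s : ℤ) + ((b : ℤ) - a)).toNat) (I1 M H g0 G (a % M) (a / H) : Finset ℕ) := by
    intro x hx z hz h
    have h1 := hpos x (mem_coe.1 hx)
    have h2 := hpos z (mem_coe.1 hz)
    simp only at h
    omega
  have hsub : I2 M H g0 G (b % M) (b / H) ⊆ (I1 M H g0 G (a % M) (a / H)).image (fun s : ℕ => ((s : ℤ) + ((b : ℤ) - a)).toNat) := by
    intro t ht
    unfold I2 at ht
    rw [mem_filter, mem_Ioc] at ht
    obtain ⟨⟨h1, h2⟩, h3⟩ := ht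
    have h3' : t ≡ b [MOD M] := h3.trans (Nat.mod_modEq b M)
    have hbt : b ≤ t := by omega
    rw [mem_image]
    refine ⟨t - b + a, ?_, by omega⟩
    unfold I1
    rw [mem_filter, mem_Ioc]
    refine ⟨⟨by omega, by omega⟩, ?_⟩
    obtain ⟨g, hg⟩ := (Nat.modEq_iff_dvd' hbt).1 h3'.symm
    rw [hg]
    have h4 : M * g + a ≡ a [MOD M] := by
      have : M * g + a = a + M * g := by ring
      rw [this]
      exact (Nat.modEq_iff_dvd' (by omega)).2 (by rw [Nat.add_sub_cancel_left]; exact dvd_mul_right _ _) |>.symm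
    exact h4.trans (Nat.mod_modEq a M).symm
  calc ∑ t ∈ I2 M H g0 G (b % M) (b / H), F ((t : ℤ) + ((a : ℤ) - b)).toNat t
      ≤ ∑ t ∈ (I1 M H g0 G (a % M) (a / H)).image (fun s : ℕ => ((s : ℤ) + ((b : ℤ) - a)).toNat),
        F ((t : ℤ) + ((a : ℤ) - b)).toNat t :=
        sum_le_sum_of_subset_of_nonneg hsub (fun _ _ _ => hF _ _)
    _ = ∑ s ∈ I1 M H g0 G (a % M) (a / H),
        F ((((((s : ℤ) + ((b : ℤ) - a)).toNat : ℕ) : ℤ) + ((a : ℤ) - b))).toNat ((s : ℤ) + ((b : ℤ) - a)).toNat := sum_image hinj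
    _ = _ := by
        apply sum_congr rfl
        intro s hs
        congr 1
        have := hpos s hs
        omega

/-- the number of pairs for one pair of starting points -/
theorem window (X y z M H g0 G r a b : ℕ) (W : ℝ) (hM : 1 ≤ M) (hMp : ∀ p : ℕ, p.Prime → (p ∣ M ↔ p ≤ y))
    (hH : 1 ≤ H) (hHG : 4 * H ≤ M * G) (ha : 1 ≤ a) (hb : 1 ≤ b)
    (haX : a + M * (g0 + G) ≤ X) (hbX : b + M * (g0 + G) ≤ X)
    (hac : ∀ p : ℕ, p.Prime → p ≤ y → ¬ p ∣ a) (hbc : ∀ p : ℕ, p.Prime → p ≤ y → ¬ p ∣ b)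
    (e1 : |corw (fun n => vonMangoldt n) z (6 * X) (I1 M H g0 G (a % M) (a / H)) ((b : ℤ) - a)| ≤ W)
    (e2 : |corw (lamz z) z (6 * X) (I2 M H g0 G (b % M) (b / H)) ((a : ℤ) - b)| ≤ W) :
    (Vz z)⁻¹ ^ 2 * (((M : ℝ) * G - 3 * H) / M * ∏ p ∈ pyz y z, (1 - (nu ((b : ℤ) - a) p : ℝ) / p) -
      (2 * 2 ^ r * ((z : ℝ) + 1) ^ r + 2 * X * Real.exp (6 * (1 + Real.log z) - r))) - 2 * W ≤
    ∑ g ∈ Ioc g0 (g0 + G), vonMangoldt (a + M * g) * vonMangoldt (b + M * g) := by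
  obtain ⟨d1, d2⟩ := div_bd a H hH
  obtain ⟨d3, d4⟩ := div_bd b H hH
  have hV := (inv_pos.2 (Vz_pos z)).le
  have hbd1 : ∀ s ∈ I1 M H g0 G (a % M) (a / H), a ≤ s ∧ s ≤ a + M * (g0 + G) := by
    intro s hs
    unfold I1 at hs
    rw [mem_filter, mem_Ioc] at hs
    omega
  have hbd2 : ∀ s ∈ I2 M H g0 G (b % M) (b / H), b ≤ s ∧ s ≤ b + M * (g0 + G) ∧ s ≡ b [MOD M] := by
    intro s hs
    unfold I2 at hs
    rw [mem_filter, mem_Ioc] at hs
    exact ⟨by omega, by omega, hs.2.trans (Nat.mod_modEq b M)⟩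
  have s1 := I1_sum M H g0 G a b hM hH (fun m n => vonMangoldt m * vonMangoldt n)
    (fun _ _ => mul_nonneg ArithmeticFunction.vonMangoldt_nonneg ArithmeticFunction.vonMangoldt_nonneg)
  have s2 := I2_sum M H g0 G a b hM hH (fun m n => vonMangoldt m * lamz z n)
    (fun _ _ => mul_nonneg ArithmeticFunction.vonMangoldt_nonneg (lamz_nonneg _ _))
  -- first replacement
  have r1 : ∑ s ∈ I1 M H g0 G (a % M) (a / H), vonMangoldt s * vonMangoldt ((s : ℤ) + ((b : ℤ) - a)).toNat =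
      ∑ s ∈ I1 M H g0 G (a % M) (a / H), vonMangoldt s * lamz z ((s : ℤ) + ((b : ℤ) - a)).toNat +
      corw (fun n => vonMangoldt n) z (6 * X) (I1 M H g0 G (a % M) (a / H)) ((b : ℤ) - a) := by
    unfold corw
    rw [← sum_add_distrib]
    apply sum_congr rfl
    intro s hs
    have := hbd1 s hs
    have h1 : hh z (6 * X) ((s : ℤ) + ((b : ℤ) - a)) =
        vonMangoldt ((s : ℤ) + ((b : ℤ) - a)).toNat - lamz z ((s : ℤ) + ((b : ℤ) - a)).toNat := by
      unfold hh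
      rw [if_pos]
      constructor
      · omega
      · push_cast
        omega
    rw [h1]
    ring
  have r2 : ∑ t ∈ I2 M H g0 G (b % M) (b / H), vonMangoldt ((t : ℤ) + ((a : ℤ) - b)).toNat * lamz z t =
      ∑ t ∈ I2 M H g0 G (b % M) (b / H), lamz z ((t : ℤ) + ((a : ℤ) - b)).toNat * lamz z t +
      corw (lamz z) z (6 * X) (I2 M H g0 G (b % M) (b / H)) ((a : ℤ) - b) := by
    unfold corw
    rw [← sum_add_distrib]
    apply sum_congr rfl
    intro s hs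
    have := hbd2 s hs
    have h1 : hh z (6 * X) ((s : ℤ) + ((a : ℤ) - b)) =
        vonMangoldt ((s : ℤ) + ((a : ℤ) - b)).toNat - lamz z ((s : ℤ) + ((a : ℤ) - b)).toNat := by
      unfold hh
      rw [if_pos]
      constructor
      · omega
      · push_cast
        omega
    rw [h1]
    ring
  -- the main term
  have r3 : (Vz z)⁻¹ ^ 2 * (((((Ioc (b / H * H + 2 * H + M * g0) (b / H * H + M * (g0 + G) - H)).filter (fun n => n ≡ b % M [MOD M])).filter
      (fun n : ℕ => ∀ p ∈ pyz y z, ¬ (p ∣ n ∨ (p : ℤ) ∣ (n : ℤ) - ((b : ℤ) - a)))).card : ℕ) : ℝ) ≤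
      ∑ t ∈ I2 M H g0 G (b % M) (b / H), lamz z ((t : ℤ) + ((a : ℤ) - b)).toNat * lamz z t := by
    have h1 : ∀ t ∈ (I2 M H g0 G (b % M) (b / H)).filter (fun n : ℕ => ∀ p ∈ pyz y z, ¬ (p ∣ n ∨ (p : ℤ) ∣ (n : ℤ) - ((b : ℤ) - a))),
        lamz z ((t : ℤ) + ((a : ℤ) - b)).toNat * lamz z t = (Vz z)⁻¹ ^ 2 := by
      intro t ht
      rw [mem_filter] at ht
      obtain ⟨ht1, ht2⟩ := ht
      obtain ⟨h3, h4, h5⟩ := hbd2 t ht1
      have hcast : ((((t : ℤ) + ((a : ℤ) - b)).toNat : ℕ) : ℤ) = (t : ℤ) - ((b : ℤ) - a) := by omega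
      unfold lamz
      rw [if_pos, if_pos]
      · ring
      · intro p hp hd
        rw [mem_pz] at hp
        rcases Nat.lt_or_ge y p with h | h
        · exact ht2 p (mem_pyz.2 ⟨h, hp.1, hp.2⟩) (Or.inl hd)
        · have hpM := (hMp p hp.2).2 h
          exact hbc p hp.2 h ((h5.dvd_iff hpM).1 hd)
      · intro p hp hd
        rw [mem_pz] at hp
        have hd' : (p : ℤ) ∣ (t : ℤ) - ((b : ℤ) - a) := by
          rw [← hcast]
          exact_mod_cast hd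
        rcases Nat.lt_or_ge y p with h | h
        · exact ht2 p (mem_pyz.2 ⟨h, hp.1, hp.2⟩) (Or.inr hd')
        · have hpM := (hMp p hp.2).2 h
          have h6 : (p : ℤ) ∣ (b : ℤ) - t := by
            have := (Nat.modEq_iff_dvd.1 h5)
            exact (show (p : ℤ) ∣ (M : ℤ) by exact_mod_cast hpM).trans this
          have h7 : (p : ℤ) ∣ (a : ℤ) := by
            have := dvd_add hd' h6
            have e : (t : ℤ) - ((b : ℤ) - a) + ((b : ℤ) - t) = a := by ring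
            rwa [e] at this
          exact hac p hp.2 h (by exact_mod_cast h7)
    have h2 : ∑ t ∈ (I2 M H g0 G (b % M) (b / H)).filter (fun n : ℕ => ∀ p ∈ pyz y z, ¬ (p ∣ n ∨ (p : ℤ) ∣ (n : ℤ) - ((b : ℤ) - a))),
        lamz z ((t : ℤ) + ((a : ℤ) - b)).toNat * lamz z t ≤
        ∑ t ∈ I2 M H g0 G (b % M) (b / H), lamz z ((t : ℤ) + ((a : ℤ) - b)).toNat * lamz z t :=
      sum_le_sum_of_subset_of_nonneg (filter_subset _ _) (fun _ _ _ => mul_nonneg (lamz_nonneg _ _) (lamz_nonneg _ _))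
    rw [sum_congr rfl h1, sum_const, nsmul_eq_mul, mul_comm] at h2
    exact h2
  have hle : b / H * H + 2 * H + M * g0 ≤ b / H * H + M * (g0 + G) - H := by
    have e : M * (g0 + G) = M * g0 + M * G := by ring
    omega
  have r4 := sieve_pairs y z M (b % M) (b / H * H + 2 * H + M * g0) (b / H * H + M * (g0 + G) - H) r hM
    (fun p hp h => (hMp p hp).1 h) hle ((b : ℤ) - a)
  have hBX : ((b / H * H + M * (g0 + G) - H : ℕ) : ℝ) ≤ X := by exact_mod_cast (show b / H * H + M * (g0 + G) - H ≤ X by omega)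
  have hlen : ((b / H * H + M * (g0 + G) - H : ℕ) : ℝ) - ((b / H * H + 2 * H + M * g0 : ℕ) : ℝ) = (M : ℝ) * G - 3 * H := by
    have h1 : H ≤ b / H * H + M * (g0 + G) := by
      have e : M * (g0 + G) = M * g0 + M * G := by ring
      omega
    rw [Nat.cast_sub h1]
    push_cast
    ring
  rw [hlen] at r4
  have r5 : 2 * ((b / H * H + M * (g0 + G) - H : ℕ) : ℝ) * Real.exp (6 * (1 + Real.log z) - r) ≤
      2 * X * Real.exp (6 * (1 + Real.log z) - r) := by gcongr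
  have r6 := mul_le_mul_of_nonneg_left (show ((M : ℝ) * G - 3 * H) / M * ∏ p ∈ pyz y z, (1 - (nu ((b : ℤ) - a) p : ℝ) / p) -
      (2 * 2 ^ r * ((z : ℝ) + 1) ^ r + 2 * X * Real.exp (6 * (1 + Real.log z) - r)) ≤ _ by
        refine le_trans ?_ r4
        linarith) (show (0 : ℝ) ≤ (Vz z)⁻¹ ^ 2 by positivity)
  have a1 := (abs_le.1 e1).1
  have a2 := (abs_le.1 e2).1
  have s1' : ∑ s ∈ I1 M H g0 G (a % M) (a / H), vonMangoldt s * vonMangoldt ((s : ℤ) + ((b : ℤ) - a)).toNat ≤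
      ∑ g ∈ Ioc g0 (g0 + G), vonMangoldt (a + M * g) * vonMangoldt (b + M * g) := s1
  have s2' : ∑ t ∈ I2 M H g0 G (b % M) (b / H), vonMangoldt ((t : ℤ) + ((a : ℤ) - b)).toNat * lamz z t ≤
      ∑ s ∈ I1 M H g0 G (a % M) (a / H), vonMangoldt s * lamz z ((s : ℤ) + ((b : ℤ) - a)).toNat := s2
  linarith

end Pool.Agent.X28.CS
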